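import Pool.Agent.U547.KB.TwoSeq

/-!
# Values of polynomials in several variables in short intervals
-/

set_option autoImplicit false
set_option linter.unusedSectionVars false

open Filter Topology

noncomputable section

namespace Pool.Agent.U547.KP

open Pool.Agent.W761.Box (bx bx_add bx_mono bx_const_le bx_nonneg bx_succ)
open Pool.Agent.TH784.KE (bx_eq bx_slice bx_le_of bx_mono_of)
open Pool.Agent.TH784.AA (bxs mem_bxs vol vol_pos vol_nonneg card_bxs)

/-- few values of a polynomial in one variable in an interval -/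
theorem count_one {d : ℕ} (hd : 0 < d) {δ R : ℝ} (hδ : 0 < δ) (hR : 0 < R) :
    ∃ K : ℕ, 0 < K ∧ ∀ P : Polynomial ℝ, P.natDegree ≤ d → δ ≤ |P.coeff d| → ∀ (a : ℝ) (S : Finset ℕ),
      (∀ t ∈ S, |P.eval ((t : ℝ) + 1) - a| < R) → S.card ≤ K := by
  classical
  obtain ⟨g, hg⟩ : ∃ g : ℕ, (d + 1) * R / δ < g := exists_nat_gt _
  have hg0 : (0 : ℝ) < g := lt_of_le_of_lt (by positivity) hg
  have hg1 : 1 ≤ g := by
    have : 0 < g := by exact_mod_cast hg0
    omega
  rw [div_lt_iff₀ hδ] at hg
  refine ⟨g * d, Nat.mul_pos hg1 hd, fun P hP hc a S hS => ?_⟩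
  by_contra hcon
  rw [not_le] at hcon
  obtain ⟨ρ, _, hρ⟩ := Finset.exists_lt_card_fiber_of_mul_lt_card_of_maps_to (s := S)
    (t := Finset.range g) (f := fun t => t % g) (n := d)
    (fun t _ => Finset.mem_range.2 (Nat.mod_lt _ hg1)) (by rwa [Finset.card_range])
  obtain ⟨T, hT, hTc⟩ := Finset.exists_subset_card_eq (s := S.filter fun t => t % g = ρ)
    (n := d + 1) hρ
  have hTS : ∀ t ∈ T, t ∈ S ∧ t % g = ρ := fun t ht => Finset.mem_filter.1 (hT ht)
  set Q : Polynomial ℝ := P - Polynomial.C a with hQ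
  have hQd : Q.degree < T.card := by
    rw [hTc]
    have h1 : Q.natDegree ≤ d := by rw [hQ, Polynomial.natDegree_sub_C]; exact hP
    refine lt_of_le_of_lt (Polynomial.degree_le_of_natDegree_le h1) ?_
    exact_mod_cast Nat.lt_succ_self d
  have hinj : Set.InjOn (fun t : ℕ => (t : ℝ) + 1) T := by
    intro x _ y _ h
    have : (x : ℝ) = y := by
      have h' : (x : ℝ) + 1 = y + 1 := h
      linarith
    exact_mod_cast this
  have key := Lagrange.coeff_eq_sum hinj hQd
  have hcoef : Q.coeff (T.card - 1) = P.coeff d := by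
    rw [hTc, Nat.add_sub_cancel, hQ, Polynomial.coeff_sub, Polynomial.coeff_C, if_neg hd.ne', sub_zero]
  rw [hcoef] at key
  have hterm : ∀ i ∈ T, |Q.eval ((i : ℝ) + 1) /
      ∏ j ∈ T.erase i, (((i : ℝ) + 1) - ((j : ℝ) + 1))| ≤ R / g := by
    intro i hi
    rw [abs_div, Finset.abs_prod]
    have h1 : |Q.eval ((i : ℝ) + 1)| < R := by
      rw [hQ, Polynomial.eval_sub, Polynomial.eval_C]
      exact hS i (hTS i hi).1
    have h2 : ∀ j ∈ T.erase i, (g : ℝ) ≤ |((i : ℝ) + 1) - ((j : ℝ) + 1)| := by
      intro j hj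
      have hij : j ≠ i := Finset.ne_of_mem_erase hj
      have hjT := Finset.mem_of_mem_erase hj
      have hmod : i % g = j % g := (hTS i hi).2.trans (hTS j hjT).2.symm
      have h3 : (g : ℤ) ∣ (i : ℤ) - j := by
        have h4 : (j : ℤ) ≡ i [ZMOD g] := by
          have : j ≡ i [MOD g] := hmod.symm
          exact (Int.natCast_modEq_iff.2 this)
        exact h4.dvd
      have h5 : (i : ℤ) - j ≠ 0 := by omega
      have h6 := Int.le_of_dvd (abs_pos.2 h5) ((dvd_abs _ _).2 h3)
      have h7 : ((i : ℝ) + 1) - ((j : ℝ) + 1) = (((i : ℤ) - j : ℤ) : ℝ) := by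
        push_cast
        ring
      rw [h7, ← Int.cast_abs]
      exact_mod_cast h6
    have h3 : (g : ℝ) ≤ ∏ j ∈ T.erase i, |((i : ℝ) + 1) - ((j : ℝ) + 1)| := by
      have h4 : ∏ _j ∈ T.erase i, (g : ℝ) ≤ ∏ j ∈ T.erase i, |((i : ℝ) + 1) - ((j : ℝ) + 1)| :=
        Finset.prod_le_prod (fun _ _ => hg0.le) h2
      rw [Finset.prod_const, Finset.card_erase_of_mem hi, hTc, Nat.add_sub_cancel] at h4
      refine le_trans ?_ h4
      exact le_self_pow₀ (by exact_mod_cast hg1) hd.ne'
    exact div_le_div₀ hR.le h1.le hg0 h3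
  have h1 : |P.coeff d| ≤ (d + 1) * (R / g) := by
    rw [key]
    refine (Finset.abs_sum_le_sum_abs _ _).trans ((Finset.sum_le_sum hterm).trans (le_of_eq ?_))
    rw [Finset.sum_const, hTc, nsmul_eq_mul]
    push_cast
    ring
  have h2 := hc.trans h1
  rw [← mul_div_assoc, le_div_iff₀ hg0] at h2
  linarith

/-- the value at `n + 1` -/
def ev {k : ℕ} (P : MvPolynomial (Fin k) ℝ) (n : Fin k → ℕ) : ℝ :=
  MvPolynomial.eval (fun i => (n i : ℝ) + 1) P

/-- the proportion of the points of a box with the property `B` -/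
def frac {k : ℕ} (B : (Fin k → ℕ) → Prop) (N : Fin k → ℕ) : ℝ := by
  classical
  exact bx k N fun n => if B n then (1 : ℝ) else 0

/-- the proportion of the points with the property `B` tends to zero -/
def Null {k : ℕ} (B : (Fin k → ℕ) → Prop) : Prop :=
  Tendsto (frac B) atTop (𝓝 0)

open Classical in
theorem frac_eq {k : ℕ} (B : (Fin k → ℕ) → Prop) (N : Fin k → ℕ) :
    frac B N = bx k N fun n => if B n then (1 : ℝ) else 0 := rfl

theorem frac_nonneg {k : ℕ} (B : (Fin k → ℕ) → Prop) (N : Fin k → ℕ) : 0 ≤ frac B N := by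
  classical
  rw [frac_eq]
  exact bx_nonneg fun n => by split_ifs <;> norm_num

theorem ev_cons {k : ℕ} (P : MvPolynomial (Fin (k + 1)) ℝ) (t : ℕ) (m : Fin k → ℕ) :
    ev P (Fin.cons t m) = ((MvPolynomial.finSuccEquiv ℝ k P).map
      (MvPolynomial.eval fun i => (m i : ℝ) + 1)).eval ((t : ℝ) + 1) := by
  rw [← MvPolynomial.eval_eq_eval_mv_eval', ev]
  congr 2
  funext i
  refine Fin.cases ?_ (fun i => ?_) i
  · simp
  · simp

theorem update_zero_cons {k : ℕ} (n : Fin (k + 1) → ℕ) (t : ℕ) :
    Function.update n 0 t = Fin.cons t (fun i : Fin k => n i.succ) := by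
  funext i
  refine Fin.cases ?_ (fun i => ?_) i
  · simp
  · simp [Function.update_of_ne (Fin.succ_ne_zero i)]

theorem bx_tail {k : ℕ} (N : Fin (k + 1) → ℕ) (hN : 1 ≤ N 0) (ψ : (Fin k → ℕ) → ℝ) :
    bx (k + 1) N (fun n => ψ fun i => n i.succ) = bx k (fun i => N i.succ) ψ := by
  rw [bx_succ]
  have h : (N 0 : ℝ) ≠ 0 := by positivity
  simp only [Fin.cons_succ]
  show bx k (fun i => N i.succ) _ = _
  congr 1
  funext m
  rw [Finset.sum_const, Finset.card_range, nsmul_eq_mul, ← mul_assoc, inv_mul_cancel₀ h, one_mul]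

theorem bx_perm {k : ℕ} (N : Fin k → ℕ) (σ : Equiv.Perm (Fin k)) (φ : (Fin k → ℕ) → ℝ) :
    bx k N (fun n => φ (n ∘ σ)) = bx k (N ∘ σ) φ := by
  rw [bx_eq, bx_eq]
  congr 1
  · unfold vol
    congr 1
    exact (Equiv.prod_comp σ fun i => (N i : ℝ)).symm
  · refine Finset.sum_nbij' (fun n => n ∘ σ) (fun n => n ∘ σ.symm) ?_ ?_ ?_ ?_ ?_
    · intro n hn
      rw [mem_bxs] at hn ⊢
      exact fun i => hn (σ i)
    · intro n hn
      rw [mem_bxs] at hn ⊢
      intro i
      have := hn (σ.symm i)
      simpa using this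
    · intro n _
      funext i
      simp
    · intro n _
      funext i
      simp
    · intro n _
      rfl

theorem tendsto_comp_perm {k : ℕ} (σ : Equiv.Perm (Fin k)) :
    Tendsto (fun N : Fin k → ℕ => N ∘ σ) atTop atTop :=
  tendsto_atTop_atTop.2 fun b => ⟨b ∘ σ.symm, fun N hN i => by
    have := hN (σ i)
    simpa using this⟩

theorem tendsto_tail {k : ℕ} :
    Tendsto (fun (N : Fin (k + 1) → ℕ) (i : Fin k) => N i.succ) atTop atTop :=
  tendsto_atTop_atTop.2 fun b => ⟨Fin.cons 0 b, fun N hN i => by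
    have := hN i.succ
    simpa using this⟩

/-- slicing for proportions -/
theorem frac_le {k : ℕ} {A B : (Fin k → ℕ) → Prop} {l : Fin k} {K : ℕ}
    (h : ∀ n, ¬ B n → ∀ S : Finset ℕ, (∀ t ∈ S, A (Function.update n l t)) → S.card ≤ K)
    {N : Fin k → ℕ} (hN : ∀ j, 1 ≤ N j) : frac A N ≤ frac B N + K / N l := by
  classical
  rw [frac_eq, frac_eq, bx_slice hN l]
  have hpos : (0 : ℝ) < N l := by
    have := hN l
    positivity
  have h1 : bx k N (fun n => (N l : ℝ)⁻¹ * ∑ t ∈ Finset.range (N l),
      if A (Function.update n l t) then (1 : ℝ) else 0) ≤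
      bx k N (fun n => (if B n then (1 : ℝ) else 0) + K / N l) := by
    refine bx_mono fun n => ?_
    by_cases hn : B n
    · rw [if_pos hn]
      have h2 : ∑ t ∈ Finset.range (N l), (if A (Function.update n l t) then (1 : ℝ) else 0) ≤
          N l := by
        refine (Finset.sum_le_sum (g := fun _ => (1 : ℝ)) fun t _ => ?_).trans ?_
        · split_ifs <;> norm_num
        · simp
      have h3 : (N l : ℝ)⁻¹ * ∑ t ∈ Finset.range (N l),
          (if A (Function.update n l t) then (1 : ℝ) else 0) ≤ 1 := by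
        rw [inv_mul_le_iff₀ hpos, mul_one]
        exact h2
      have h4 : (0 : ℝ) ≤ K / N l := by positivity
      linarith
    · rw [if_neg hn, zero_add, div_eq_inv_mul]
      refine mul_le_mul_of_nonneg_left ?_ (inv_pos.2 hpos).le
      rw [← Finset.sum_filter, Finset.sum_const, nsmul_eq_mul, mul_one]
      have h2 := h n hn ((Finset.range (N l)).filter fun t => A (Function.update n l t))
        (fun t ht => (Finset.mem_filter.1 ht).2)
      exact_mod_cast h2
  refine h1.trans ?_
  rw [bx_add]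
  have h5 := bx_const_le (k := k) (N := N) (C := (K : ℝ) / N l) (by positivity)
  linarith

theorem null_of_slice {k : ℕ} {A B : (Fin k → ℕ) → Prop} {l : Fin k} {K : ℕ} (hB : Null B)
    (h : ∀ n, ¬ B n → ∀ S : Finset ℕ, (∀ t ∈ S, A (Function.update n l t)) → S.card ≤ K) :
    Null A := by
  have h1 : Tendsto (fun N : Fin k → ℕ => (K : ℝ) / (N l : ℝ)) atTop (𝓝 0) := by
    refine Tendsto.div_atTop tendsto_const_nhds ?_
    refine tendsto_natCast_atTop_atTop.comp (tendsto_atTop_atTop.2 fun b => ⟨fun _ => b,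
      fun N hN => hN l⟩)
  have h2 := Tendsto.add hB h1
  rw [add_zero] at h2
  refine squeeze_zero' (Eventually.of_forall fun N => frac_nonneg A N) ?_ h2
  exact eventually_atTop.2 ⟨fun _ => 1, fun N hN => frac_le h hN⟩

/-- small values of a nonzero polynomial are rare -/
theorem small_null : ∀ (k : ℕ) (P : MvPolynomial (Fin k) ℝ), P ≠ 0 →
    ∃ δ : ℝ, 0 < δ ∧ Null fun n => |ev P n| < δ := by
  intro k
  induction k with
  | zero =>
    intro P hP
    obtain ⟨c, rfl⟩ := MvPolynomial.C_surjective (R := ℝ) (Fin 0) P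
    have hc : c ≠ 0 := by
      rintro rfl
      exact hP (map_zero _)
    refine ⟨|c|, abs_pos.2 hc, ?_⟩
    unfold Null
    have : frac (fun n : Fin 0 → ℕ => |ev (MvPolynomial.C c) n| < |c|) = fun _ => 0 := by
      classical
      funext N
      rw [frac_eq]
      have h1 : ∀ n : Fin 0 → ℕ, ¬ |ev (MvPolynomial.C c) n| < |c| := by
        intro n
        rw [ev, MvPolynomial.eval_C]
        exact lt_irrefl _
      simp only [h1, if_false]
      have h2 := bx_const_le (k := 0) (N := N) (C := (0 : ℝ)) le_rfl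
      have h3 := bx_nonneg (k := 0) (N := N) (a := fun _ => (0 : ℝ)) fun _ => le_rfl
      linarith
    rw [this]
    exact tendsto_const_nhds
  | succ k ih =>
    intro P hP
    set Q := MvPolynomial.finSuccEquiv ℝ k P with hQ
    have hQ0 : Q ≠ 0 := by
      rw [hQ]
      exact (map_ne_zero_iff _ (MvPolynomial.finSuccEquiv ℝ k).injective).2 hP
    obtain ⟨δ, hδ, hnull⟩ := ih Q.leadingCoeff (Polynomial.leadingCoeff_ne_zero.2 hQ0)
    set d := Q.natDegree with hd
    have hlead : ∀ m : Fin k → ℕ, (Q.map (MvPolynomial.eval fun i => (m i : ℝ) + 1)).coeff d =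
        ev Q.leadingCoeff m := by
      intro m
      rw [Polynomial.coeff_map]
      rfl
    have hBnull : Null fun n : Fin (k + 1) → ℕ => |ev Q.leadingCoeff (fun i => n i.succ)| < δ := by
      classical
      have h1 := hnull.comp (tendsto_tail (k := k))
      refine h1.congr' ?_
      refine eventually_atTop.2 ⟨fun _ => 1, fun N hN => ?_⟩
      rw [Function.comp_apply, frac_eq, frac_eq]
      exact (bx_tail N (hN 0) fun m => if |ev Q.leadingCoeff m| < δ then (1 : ℝ) else 0).symm
    rcases Nat.eq_zero_or_pos d with hd0 | hd0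
    · refine ⟨δ, hδ, ?_⟩
      refine null_of_slice (l := 0) (K := 0) hBnull fun n hn S hS => ?_
      rw [Nat.le_zero, Finset.card_eq_zero]
      by_contra hne
      obtain ⟨t, ht⟩ := Finset.nonempty_iff_ne_empty.2 hne
      have h1 := hS t ht
      rw [update_zero_cons, ev_cons] at h1
      rw [← hQ] at h1
      have h2 : Q.map (MvPolynomial.eval fun i => ((n i.succ : ℕ) : ℝ) + 1) =
          Polynomial.C (ev Q.leadingCoeff fun i => n i.succ) := by
        have h3 := Polynomial.eq_C_of_natDegree_eq_zero (hd.symm.trans hd0)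
        have h4 : Q.leadingCoeff = Q.coeff 0 := by
          rw [Polynomial.leadingCoeff, ← hd, hd0]
        rw [h4]
        conv_lhs => rw [h3]
        rw [Polynomial.map_C]
        rfl
      rw [h2, Polynomial.eval_C] at h1
      exact hn h1
    · obtain ⟨K, -, hK⟩ := count_one hd0 hδ one_pos
      refine ⟨1, one_pos, null_of_slice (l := 0) (K := K) hBnull fun n hn S hS => ?_⟩
      refine hK (Q.map (MvPolynomial.eval fun i => ((n i.succ : ℕ) : ℝ) + 1))
        (Polynomial.natDegree_map_le.trans hd.ge) ?_ 0 S fun t ht => ?_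
      · rw [hlead fun i => n i.succ]
        exact not_lt.1 hn
      · have h1 := hS t ht
        rw [update_zero_cons, ev_cons] at h1
        rwa [sub_zero]

/-- few values in an interval on most lines -/
theorem lines_count {k : ℕ} (P : MvPolynomial (Fin k) ℝ) (l : Fin k) (hl : 0 < P.degreeOf l)
    {R : ℝ} (hR : 0 < R) : ∃ K : ℕ, 0 < K ∧ ∃ B : (Fin k → ℕ) → Prop, Null B ∧
      ∀ n, ¬ B n → ∀ (a : ℝ) (S : Finset ℕ), (∀ t ∈ S, |ev P (Function.update n l t) - a| < R) →
        S.card ≤ K := by
  classical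
  cases k with
  | zero => exact l.elim0
  | succ k =>
    set σ : Equiv.Perm (Fin (k + 1)) := Equiv.swap 0 l with hσ
    set P' := MvPolynomial.rename σ P with hP'
    have hev : ∀ n : Fin (k + 1) → ℕ, ev P' n = ev P (n ∘ σ) := by
      intro n
      rw [hP', ev, MvPolynomial.eval_rename]
      rfl
    set Q := MvPolynomial.finSuccEquiv ℝ k P' with hQ
    set d := Q.natDegree with hd
    have hdeg : d = P.degreeOf l := by
      rw [hd, hQ, MvPolynomial.natDegree_finSuccEquiv, hP']
      have h1 := MvPolynomial.degreeOf_rename_of_injective (p := P) σ.injective l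
      rw [← h1]
      congr 1
      rw [hσ, Equiv.swap_apply_right]
    have hd0 : 0 < d := by rw [hdeg]; exact hl
    have hQ0 : Q ≠ 0 := by
      intro h
      rw [hd, h, Polynomial.natDegree_zero] at hd0
      exact lt_irrefl _ hd0
    obtain ⟨δ, hδ, hnull⟩ := small_null k Q.leadingCoeff (Polynomial.leadingCoeff_ne_zero.2 hQ0)
    obtain ⟨K, hK0, hK⟩ := count_one hd0 hδ hR
    refine ⟨K, hK0, fun n => |ev Q.leadingCoeff (fun i => (n ∘ σ) i.succ)| < δ, ?_, ?_⟩
    · have h1 := (hnull.comp (tendsto_tail (k := k))).comp (tendsto_comp_perm σ)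
      refine h1.congr' ?_
      refine eventually_atTop.2 ⟨fun _ => 1, fun N hN => ?_⟩
      rw [Function.comp_apply, Function.comp_apply, frac_eq, frac_eq]
      rw [bx_perm N σ fun n => if |ev Q.leadingCoeff (fun i => n i.succ)| < δ then (1 : ℝ) else 0]
      exact (bx_tail (N ∘ σ) (hN _) fun m => if |ev Q.leadingCoeff m| < δ then (1 : ℝ) else 0).symm
    · intro n hn a S hS
      have hup : ∀ t, ev P (Function.update n l t) =
          (Q.map (MvPolynomial.eval fun i => (((n ∘ σ) i.succ : ℕ) : ℝ) + 1)).eval ((t : ℝ) + 1) := by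
        intro t
        rw [hQ, ← ev_cons, ← update_zero_cons, hev]
        congr 1
        funext i
        have hσσ : ∀ i, σ (σ i) = i := fun i => Equiv.swap_apply_self 0 l i
        by_cases hi : i = l
        · subst hi
          have : σ i = 0 := Equiv.swap_apply_right 0 i
          simp [this]
        · have h0 : σ i ≠ 0 := by
            intro h
            apply hi
            rw [← hσσ i, h]
            exact Equiv.swap_apply_left 0 l
          simp [Function.update_of_ne hi, Function.update_of_ne h0, hσσ]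
      refine hK (Q.map (MvPolynomial.eval fun i => (((n ∘ σ) i.succ : ℕ) : ℝ) + 1))
        (Polynomial.natDegree_map_le.trans hd.ge) ?_ a S fun t ht => ?_
      · rw [Polynomial.coeff_map]
        exact not_lt.1 hn
      · rw [← hup]
        exact hS t ht

/-- values in an interval are rare -/
theorem values_null {k : ℕ} (P : MvPolynomial (Fin k) ℝ) (l : Fin k) (hl : 0 < P.degreeOf l)
    {R : ℝ} (hR : 0 < R) : Null fun n => |ev P n| < R := by
  obtain ⟨K, -, B, hB, h⟩ := lines_count P l hl hR
  refine null_of_slice (l := l) (K := K) hB fun n hn S hS => h n hn 0 S fun t ht => ?_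
  rw [sub_zero]
  exact hS t ht

end Pool.Agent.U547.KP
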