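import Pool.Agent.U547.KP.P1

/-!
# Lines with separated positions
-/

set_option autoImplicit false
set_option linter.unusedSectionVars false

open MeasureTheory Filter Topology
open scoped ENNReal

noncomputable section

namespace Pool.Agent.U547.KP

open Pool.Agent.TH784.KE
open Pool.Agent.U547.KB (orth_gen)
open Pool.Agent.W761.Box (bx bx_add bx_mul bx_sum bx_mono bx_abs bx_const_le bx_nonneg)
open Pool.Agent.TH784.AA (bxs mem_bxs vol vol_pos vol_nonneg card_bxs sum_fiber bxs_mono)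

/-- classes with separated values -/
theorem exists_colour {p : ℕ → ℝ} {R : ℝ} {K : ℕ} (hR : 0 < R)
    (hK : ∀ (a : ℝ) (T : Finset ℕ), (∀ t ∈ T, |p t - a| < R) → T.card ≤ K) (N : ℕ) :
    ∃ χ : ℕ → ℕ, (∀ i < N, χ i < K) ∧ ∀ i < N, ∀ j < N, i ≠ j → χ i = χ j → R ≤ |p i - p j| := by
  classical
  induction N with
  | zero => exact ⟨fun _ => 0, fun i hi => absurd hi (Nat.not_lt_zero _),
      fun i hi => absurd hi (Nat.not_lt_zero _)⟩
  | succ N ih =>
    obtain ⟨χ, h1, h2⟩ := ih
    set T := (Finset.range (N + 1)).filter fun t => |p t - p N| < R with hT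
    have hTc : T.card ≤ K := hK (p N) T fun t ht => (Finset.mem_filter.1 ht).2
    have hNT : N ∈ T := by
      rw [hT, Finset.mem_filter]
      refine ⟨Finset.self_mem_range_succ N, ?_⟩
      rw [sub_self, abs_zero]
      exact hR
    have hcard : ((T.erase N).image χ).card < (Finset.range K).card := by
      rw [Finset.card_range]
      refine lt_of_le_of_lt Finset.card_image_le ?_
      rw [Finset.card_erase_of_mem hNT]
      have : 0 < T.card := Finset.card_pos.2 ⟨N, hNT⟩
      omega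
    obtain ⟨c, hc, hc'⟩ := Finset.exists_mem_notMem_of_card_lt_card hcard
    have hfar : ∀ i < N, c = χ i → R ≤ |p i - p N| := by
      intro i hi he
      by_contra hcon
      rw [not_le] at hcon
      apply hc'
      rw [he]
      refine Finset.mem_image_of_mem χ (Finset.mem_erase.2 ⟨hi.ne, ?_⟩)
      rw [hT, Finset.mem_filter]
      exact ⟨Finset.mem_range.2 (by omega), hcon⟩
    refine ⟨Function.update χ N c, fun i hi => ?_, fun i hi j hj hij he => ?_⟩
    · by_cases h : i = N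
      · subst h
        rw [Function.update_self]
        exact Finset.mem_range.1 hc
      · rw [Function.update_of_ne h]
        exact h1 i (by omega)
    · by_cases hiN : i = N
      · subst hiN
        have hjN : j ≠ i := hij.symm
        rw [Function.update_self, Function.update_of_ne hjN] at he
        have := hfar j (by omega) he
        rwa [abs_sub_comm] at this
      · by_cases hjN : j = N
        · subst hjN
          rw [Function.update_self, Function.update_of_ne hiN] at he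
          exact hfar i (by omega) he.symm
        · rw [Function.update_of_ne hiN, Function.update_of_ne hjN] at he
          exact h2 i (by omega) j (by omega) hij he

/-- an injective rank function for separated values -/
theorem exists_rank {p : ℕ → ℝ} {R : ℝ} (hR : 0 < R) (M : Finset ℕ)
    (h : ∀ i ∈ M, ∀ j ∈ M, i ≠ j → R ≤ |p i - p j|) :
    ∃ rk : ℕ → ℤ, Function.Injective rk ∧ ∀ i ∈ M, ∀ j ∈ M, rk j < rk i → p j + R ≤ p i := by
  classical
  let c : ℕ → ℕ := fun m => (M.filter fun j => p j < p m).card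
  have hcle : ∀ i j, p i ≤ p j → c i ≤ c j := by
    intro i j hij
    refine Finset.card_le_card fun t ht => ?_
    rw [Finset.mem_filter] at ht ⊢
    exact ⟨ht.1, ht.2.trans_le hij⟩
  have hclt : ∀ i ∈ M, ∀ j, p i < p j → c i < c j := by
    intro i hi j hij
    refine Finset.card_lt_card ?_
    rw [Finset.ssubset_iff_of_subset]
    · exact ⟨i, Finset.mem_filter.2 ⟨hi, hij⟩, fun h => lt_irrefl _ (Finset.mem_filter.1 h).2⟩
    · intro t ht
      rw [Finset.mem_filter] at ht ⊢
      exact ⟨ht.1, ht.2.trans hij⟩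
  have hne : ∀ i ∈ M, ∀ j ∈ M, i ≠ j → c i ≠ c j := by
    intro i hi j hj hij
    have h1 := h i hi j hj hij
    have h2 : p i ≠ p j := by
      intro he
      rw [he, sub_self, abs_zero] at h1
      linarith
    rcases lt_or_gt_of_ne h2 with h3 | h3
    · exact (hclt i hi j h3).ne
    · exact (hclt j hj i h3).ne'
  refine ⟨fun m => if m ∈ M then 2 * (c m : ℤ) else 2 * (m : ℤ) + 1, ?_, ?_⟩
  · intro i j hij
    simp only at hij
    by_cases hi : i ∈ M
    · by_cases hj : j ∈ M
      · rw [if_pos hi, if_pos hj] at hij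
        by_contra hcon
        exact hne i hi j hj hcon (by omega)
      · rw [if_pos hi, if_neg hj] at hij
        omega
    · by_cases hj : j ∈ M
      · rw [if_neg hi, if_pos hj] at hij
        omega
      · rw [if_neg hi, if_neg hj] at hij
        omega
  · intro i hi j hj hij
    simp only [if_pos hi, if_pos hj] at hij
    have h1 : c j < c i := by omega
    have h2 : p j < p i := by
      by_contra hcon
      exact absurd (hcle i j (not_lt.1 hcon)) (not_le.2 h1)
    have h3 := h i hi j hj (by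
      rintro rfl
      exact lt_irrefl _ h2)
    rw [abs_of_pos (by linarith)] at h3
    linarith

variable {X : Type*} {mA mY mX : MeasurableSpace X} {μ : Measure X} [IsProbabilityMeasure μ]
variable {G : Type*} [Group G]
variable {Φ : G →* Equiv.Perm X} {ℓ : G → ℝ}
variable {J : Type*} [DecidableEq J]

theorem line_bound' (hFl : Flow μ Φ) (hA : Filt mX mA Φ ℓ) (hY : Base mY mA Φ) {V : Finset J}
    {v : J} (hv : v ∈ V) {p : ℕ → J → G}
    {F H : J → X → ℝ} {W : ℕ → X → ℝ} {r s : G} {R : ℝ}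
    (hsr : ℓ s ≤ ℓ r) (hR : ℓ r - ℓ s ≤ R) (hR0 : 0 < R)
    (hF : ∀ w ∈ V, Measurable[cm mA Φ r] (F w) ∧ ∀ x, |F w x| ≤ 1)
    (hH : CE μ (cm mA Φ s) (F v) (H v)) (hW : ∀ m, Measurable[mY] (W m) ∧ ∀ x, |W m x| ≤ 1)
    {L : ℕ} (hL : 0 < L)
    (hc : ∀ (a : ℝ) (T : Finset ℕ), (∀ t ∈ T, |ℓ (p t v) - a| < R) → T.card ≤ L)
    {N : ℕ} (hN : 0 < N) {t : ℝ} (ht : 0 ≤ t) :
    μ.real {x | t ≤ |∑ m ∈ Finset.range N, DD V Φ ℓ R F H (W m) (p m) v x|} ≤
      L * (2 * Real.exp (-((t / (2 * L)) ^ 2 / (2 * N)))) := by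
  classical
  have hL' : (0 : ℝ) < L := by exact_mod_cast hL
  obtain ⟨χ, hχ1, hχ2⟩ := exists_colour (p := fun m => ℓ (p m v)) hR0 hc N
  set B : Finset ℕ := Finset.range N with hB
  have hmeas : ∀ m, Measurable (DD V Φ ℓ R F H (W m) (p m) v) := fun m =>
    (DD_past hA hY hv hsr hR0.le (fun w hw => (hF w hw).1) hH.1 (hW m).1
      (t := r * p m v) (hA.hom _ _).ge).mono (cm_le hFl hA _) le_rfl
  have key : ∀ ρ ∈ Finset.range L, μ.real {x | t / (2 * L) ≤
      |∑ m ∈ B.filter (fun m => χ m = ρ),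
        DD V Φ ℓ R F H (W m) (p m) v x / 2|} ≤
      2 * Real.exp (-((t / (2 * L)) ^ 2 / (2 * N))) := by
    intro ρ _
    have hcard : (B.filter (fun m => χ m = ρ)).card ≤ N :=
      (Finset.card_filter_le _ _).trans (Finset.card_range N).le
    have hM : ∀ m ∈ B.filter (fun m => χ m = ρ), m < N ∧ χ m = ρ :=
      fun m hm => ⟨Finset.mem_range.1 (Finset.mem_filter.1 hm).1, (Finset.mem_filter.1 hm).2⟩
    have hb : ∀ m ∈ B.filter (fun m => χ m = ρ), ∀ x,
        |DD V Φ ℓ R F H (W m) (p m) v x / 2| ≤ 1 := by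
      intro m _ x
      rw [abs_div, abs_two]
      have := DD_abs (Φ := Φ) (ℓ := ℓ) (R := R) hv (fun w hw => (hF w hw).2) hH.2.1 (hW m).2
        (p m) x
      linarith
    have hmm : ∀ m ∈ B.filter (fun m => χ m = ρ), Measurable fun x =>
        DD V Φ ℓ R F H (W m) (p m) v x / 2 :=
      fun m _ => (hmeas m).div_const 2
    obtain ⟨rk, hrk, hrk'⟩ := exists_rank (p := fun m => ℓ (p m v)) hR0
      (B.filter (fun m => χ m = ρ)) fun i hi j hj hij =>
        hχ2 i (hM i hi).1 j (hM j hj).1 hij ((hM i hi).2.trans (hM j hj).2.symm)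
    refine azuma hrk _ hmm hb ?_ (div_nonneg ht (by positivity)) hN hcard
    exact orth_gen hFl hA hY hv hsr hR hR0.le hF hH hW _ _ hrk'
  have hsub : {x | t ≤ |∑ m ∈ B,
      DD V Φ ℓ R F H (W m) (p m) v x|} ⊆
      ⋃ ρ ∈ Finset.range L, {x | t / (2 * L) ≤
      |∑ m ∈ B.filter (fun m => χ m = ρ),
        DD V Φ ℓ R F H (W m) (p m) v x / 2|} := by
    intro x hx
    by_contra hcon
    simp only [Set.mem_iUnion, Set.mem_ofPred_eq, not_exists, not_le] at hcon
    have h1 : ∑ m ∈ B, DD V Φ ℓ R F H (W m) (p m) v x =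
        2 * ∑ ρ ∈ Finset.range L, ∑ m ∈ B.filter (fun m => χ m = ρ),
          DD V Φ ℓ R F H (W m) (p m) v x / 2 := by
      rw [Finset.sum_fiberwise_of_maps_to (s := B) (t := Finset.range L)
        (g := fun m => χ m) (fun m hm => Finset.mem_range.2 (hχ1 m (Finset.mem_range.1 hm))),
        Finset.mul_sum]
      refine Finset.sum_congr rfl fun m _ => ?_
      ring
    have h2 : |∑ m ∈ B, DD V Φ ℓ R F H (W m) (p m) v x| < t := by
      rw [h1, abs_mul, abs_two]
      have h3 : |∑ ρ ∈ Finset.range L, ∑ m ∈ B.filter (fun m => χ m = ρ),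
          DD V Φ ℓ R F H (W m) (p m) v x / 2| < L * (t / (2 * L)) := by
        refine (Finset.abs_sum_le_sum_abs _ _).trans_lt ?_
        refine (Finset.sum_lt_sum_of_nonempty ⟨0, Finset.mem_range.2 hL⟩
          fun ρ hρ => hcon ρ hρ).trans_le ?_
        rw [Finset.sum_const, Finset.card_range, nsmul_eq_mul]
      calc 2 * _ < 2 * (L * (t / (2 * L))) := by linarith
        _ = t := by field_simp
    exact absurd hx (not_le.2 h2)
  refine (measureReal_mono hsub (measure_ne_top _ _)).trans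
    ((measureReal_biUnion_finset_le _ _).trans ?_)
  refine (Finset.sum_le_sum key).trans ?_
  rw [Finset.sum_const, Finset.card_range, nsmul_eq_mul]

/-- sums along the good lines of a cube -/
theorem lines_ae' {k : ℕ} (hFl : Flow μ Φ) (hA : Filt mX mA Φ ℓ) (hY : Base mY mA Φ)
    {V : Finset J} {q : (Fin k → ℕ) → J → G} (l : Fin k) {F H : J → X → ℝ}
    {W : (Fin k → ℕ) → X → ℝ} {r s : G} {R : ℝ}
    (hsr : ℓ s ≤ ℓ r) (hR : ℓ r - ℓ s ≤ R) (hR0 : 0 < R)
    (hF : ∀ w ∈ V, Measurable[cm mA Φ r] (F w) ∧ ∀ x, |F w x| ≤ 1)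
    (hH : ∀ v ∈ V, CE μ (cm mA Φ s) (F v) (H v))
    (hW : ∀ n, Measurable[mY] (W n) ∧ ∀ x, |W n x| ≤ 1)
    {L : ℕ} (hL : 0 < L) {B : (Fin k → ℕ) → Prop}
    (hc : ∀ v ∈ V, ∀ n, ¬ B n → ∀ (a : ℝ) (T : Finset ℕ),
      (∀ t ∈ T, |ℓ (q (Function.update n l t) v) - a| < R) → T.card ≤ L) {η : ℝ} (hη : 0 < η) :
    ∀ᵐ x ∂μ, ∀ᶠ M : ℕ in atTop, ∀ n ∈ bxs (fun _ : Fin k => M), ¬ B n →
      |∑ t ∈ Finset.range M, ∑ v ∈ V, DD V Φ ℓ R F H (W (Function.update n l t))
        (q (Function.update n l t)) v x| ≤ η * M := by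
  classical
  set η' : ℝ := η / (V.card + 1) with hη'
  have hη'0 : 0 < η' := by positivity
  set κ : ℝ := (η' / (2 * L)) ^ 2 / 2 with hκ
  have hL' : (0 : ℝ) < L := by exact_mod_cast hL
  have hκ0 : 0 < κ := by positivity
  let bad : ℕ → Set X := fun M => ⋃ n ∈ (bxs (fun _ : Fin k => M)).filter (fun n => ¬ B n), ⋃ v ∈ V,
    {x | η' * M ≤ |∑ t ∈ Finset.range M, DD V Φ ℓ R F H (W (Function.update n l t))
      (q (Function.update n l t)) v x|}
  have hbad : ∀ M : ℕ, 0 < M → μ.real (bad M) ≤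
      ((M : ℝ) ^ k * Real.exp (-κ) ^ M) * (V.card * (L * 2)) := by
    intro M hM
    have hM' : (0 : ℝ) < M := by exact_mod_cast hM
    refine (measureReal_biUnion_finset_le _ _).trans ?_
    have h1 : ∀ n ∈ (bxs (fun _ : Fin k => M)).filter (fun n => ¬ B n), μ.real (⋃ v ∈ V,
        {x | η' * M ≤ |∑ t ∈ Finset.range M, DD V Φ ℓ R F H (W (Function.update n l t))
          (q (Function.update n l t)) v x|}) ≤
        V.card * (L * (2 * Real.exp (-κ) ^ M)) := by
      intro n hn
      refine (measureReal_biUnion_finset_le _ _).trans ?_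
      rw [← nsmul_eq_mul, ← Finset.sum_const]
      refine Finset.sum_le_sum fun v hv => ?_
      have h2 := line_bound' hFl hA hY hv (p := fun m => q (Function.update n l m))
        (W := fun t => W (Function.update n l t)) hsr hR hR0 hF (hH v hv)
        (fun t => hW _) hL (hc v hv n (Finset.mem_filter.1 hn).2) hM (t := η' * M) (by positivity)
      refine h2.trans (le_of_eq ?_)
      congr 2
      rw [← Real.exp_nat_mul]
      congr 1
      rw [hκ]
      field_simp
    have hcd : (((bxs (fun _ : Fin k => M)).filter (fun n => ¬ B n)).card : ℝ) ≤ (M : ℝ) ^ k := by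
      have h3 : (((bxs (fun _ : Fin k => M)).filter (fun n => ¬ B n)).card : ℝ) ≤
          ((bxs (fun _ : Fin k => M)).card : ℝ) := by
        exact_mod_cast Finset.card_filter_le _ _
      rw [card_bxs] at h3
      refine h3.trans (le_of_eq ?_)
      unfold vol
      rw [Finset.prod_const, Finset.card_univ, Fintype.card_fin]
    refine (Finset.sum_le_sum h1).trans ?_
    rw [Finset.sum_const, nsmul_eq_mul]
    calc _ ≤ (M : ℝ) ^ k * (V.card * (L * (2 * Real.exp (-κ) ^ M))) :=
          mul_le_mul_of_nonneg_right hcd (by positivity)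
      _ = _ := by ring
  have hsummable : Summable fun M : ℕ => ((M : ℝ) ^ k * Real.exp (-κ) ^ M) *
      (V.card * (L * 2)) := by
    refine Summable.mul_right _ ?_
    refine summable_pow_mul_geometric_of_norm_lt_one k ?_
    rw [Real.norm_eq_abs, abs_of_pos (Real.exp_pos _), Real.exp_lt_one_iff]
    linarith
  have hfin : ∑' M, μ (bad (M + 1)) ≠ ⊤ := by
    have h3 : ∀ M, μ (bad (M + 1)) ≤ ENNReal.ofReal ((((M + 1 : ℕ) : ℝ) ^ k *
        Real.exp (-κ) ^ (M + 1)) * (V.card * (L * 2))) := by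
      intro M
      have h4 := hbad (M + 1) M.succ_pos
      rw [measureReal_def] at h4
      rw [← ENNReal.ofReal_toReal (measure_ne_top μ (bad (M + 1)))]
      exact ENNReal.ofReal_le_ofReal h4
    refine ne_top_of_le_ne_top ?_ (ENNReal.tsum_le_tsum h3)
    exact ((summable_nat_add_iff 1).2 hsummable).tsum_ofReal_ne_top
  filter_upwards [ae_eventually_notMem hfin] with x hx
  obtain ⟨M₀, hM₀⟩ := eventually_atTop.1 hx
  refine eventually_atTop.2 ⟨M₀ + 1, fun M' hM' => ?_⟩
  obtain ⟨M, rfl⟩ : ∃ M, M' = M + 1 := ⟨M' - 1, by omega⟩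
  have hM := hM₀ M (by omega)
  intro n hn hnB
  by_contra hcon
  rw [not_le] at hcon
  apply hM
  have h5 : ∃ v ∈ V, η' * ((M + 1 : ℕ) : ℝ) ≤ |∑ t ∈ Finset.range (M + 1),
      DD V Φ ℓ R F H (W (Function.update n l t)) (q (Function.update n l t)) v x| := by
    by_contra hcon2
    push Not at hcon2
    rw [Finset.sum_comm] at hcon
    have h6 := Finset.abs_sum_le_sum_abs (fun v => ∑ t ∈ Finset.range (M + 1),
      DD V Φ ℓ R F H (W (Function.update n l t)) (q (Function.update n l t)) v x) V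
    have h7 : ∑ v ∈ V, |∑ t ∈ Finset.range (M + 1),
        DD V Φ ℓ R F H (W (Function.update n l t)) (q (Function.update n l t)) v x| ≤
        V.card * (η' * ((M + 1 : ℕ) : ℝ)) := by
      rw [← nsmul_eq_mul, ← Finset.sum_const]
      exact Finset.sum_le_sum fun v hv => (hcon2 v hv).le
    have h8 : (V.card : ℝ) * (η' * ((M + 1 : ℕ) : ℝ)) ≤ η * ((M + 1 : ℕ) : ℝ) := by
      rw [← mul_assoc]
      refine mul_le_mul_of_nonneg_right ?_ (by positivity)
      rw [hη', mul_div_assoc', div_le_iff₀ (by positivity)]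
      nlinarith
    linarith
  obtain ⟨v, hv, hle⟩ := h5
  exact Set.mem_biUnion (Finset.mem_filter.2 ⟨hn, hnB⟩) (Set.mem_biUnion hv hle)

/-- more than `K` values of `p · v` on the line through `n` in the direction `l` in an interval -/
def Bad {k : ℕ} (p : (Fin k → ℕ) → J → ℝ) (v : J) (l : Fin k) (R : ℝ) (K : ℕ)
    (n : Fin k → ℕ) : Prop :=
  ∃ (a : ℝ) (T : Finset ℕ), (∀ t ∈ T, |p (Function.update n l t) v - a| < R) ∧ K < T.card

/-- positions which spread along the lines and move apart from each other -/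
structure Wide {k : ℕ} (S : Finset J) (dep : J → Finset (Fin k)) (p : (Fin k → ℕ) → J → ℝ) :
    Prop where
  line : ∀ v ∈ S, ∀ l ∈ dep v, ∀ R : ℝ, 0 < R → ∃ K : ℕ, 0 < K ∧ Null (Bad p v l R K)
  sep : ∀ v ∈ S, ∀ w ∈ S, v ≠ w → ∀ R : ℝ, 0 < R → Null fun n => |p n v - p n w| < R

theorem null_mono {k : ℕ} {A B : (Fin k → ℕ) → Prop} (h : ∀ n, A n → B n) (hB : Null B) :
    Null A := by
  classical
  refine squeeze_zero (fun N => frac_nonneg _ N) (fun N => ?_) hB
  rw [frac_eq, frac_eq]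
  refine bx_mono fun n => ?_
  by_cases hn : A n
  · rw [if_pos hn, if_pos (h n hn)]
  · rw [if_neg hn]
    split_ifs <;> norm_num

theorem null_exists {k : ℕ} {S : Finset J} {B : J → (Fin k → ℕ) → Prop}
    (h : ∀ v ∈ S, Null (B v)) : Null fun n => ∃ v ∈ S, B v n := by
  classical
  have h1 : Tendsto (fun N : Fin k → ℕ => ∑ v ∈ S, frac (B v) N) atTop (𝓝 0) := by
    have h2 := tendsto_finsetSum S fun v hv => h v hv
    rwa [Finset.sum_const_zero] at h2
  refine squeeze_zero (fun N => frac_nonneg _ N) (fun N => ?_) h1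
  rw [frac_eq]
  simp only [frac_eq]
  rw [← bx_sum]
  refine bx_mono fun n => ?_
  by_cases hn : ∃ v ∈ S, B v n
  · obtain ⟨v, hv, hvn⟩ := hn
    rw [if_pos ⟨v, hv, hvn⟩]
    have h3 := Finset.single_le_sum (s := S) (f := fun v => if B v n then (1 : ℝ) else 0)
      (fun _ _ => by split_ifs <;> norm_num) hv
    simp only [if_pos hvn] at h3
    exact h3
  · rw [if_neg hn]
    exact Finset.sum_nonneg fun _ _ => by split_ifs <;> norm_num

variable [Fintype J]

theorem wide_bound {k : ℕ} (hk : 0 < k) (hFl : Flow μ Φ) (hA : Filt mX mA Φ ℓ) (hY : Base mY mA Φ)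
    {S : Finset J} {dep : J → Finset (Fin k)} {q : (Fin k → ℕ) → J → G}
    (hq : Wide S dep fun n v => ℓ (q n v))
    (hdep : ∀ v ∈ S, ∀ l ∉ dep v, ∀ n t, q (Function.update n l t) v = q n v)
    (hcov : ∀ l, ∃ v ∈ S, l ∈ dep v)
    {F H : J → X → ℝ} {r s : G} {R : ℝ} (hsr : ℓ s ≤ ℓ r) (hR : ℓ r - ℓ s ≤ R) (hR0 : 0 < R)
    (hF : ∀ v ∈ S, Measurable[cm mA Φ r] (F v)) (hF1 : ∀ v x, |F v x| ≤ 1)
    (hFY : ∀ v ∉ S, Measurable[mY] (F v)) (hH : ∀ v ∈ S, CE μ (cm mA Φ s) (F v) (H v))
    {η : ℝ} (hη : 0 < η) :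
    ∀ᵐ x ∂μ, ∀ᶠ N : Fin k → ℕ in atTop,
      |bx k N fun n => ∏ v, F v (Φ (q n v) x)| ≤
        η + bx k N fun n => errb Φ ℓ R H S (q n) x := by
  classical
  have : Nonempty (Fin k) := ⟨⟨0, hk⟩⟩
  let V : Fin k → Finset J := fun l => S.filter fun v => l ∈ dep v
  have hVS : ∀ l, V l ⊆ S := fun l => Finset.filter_subset _ _
  let W : (Fin k → ℕ) → X → ℝ := fun n x => ∏ v ∈ Sᶜ, F v (Φ (q n v) x)
  have hW : ∀ n, Measurable[mY] (W n) ∧ ∀ x, |W n x| ≤ 1 := by
    intro n
    refine ⟨Finset.measurable_fun_prod _ fun v hv => ?_, fun x =>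
      prod_abs_le (fun w _ => hF1 w) _ x⟩
    exact (hFY v (Finset.mem_compl.1 hv)).comp (hY.inv _)
  have hline' : ∀ l : Fin k, ∃ K : ℕ, 0 < K ∧ ∃ B : (Fin k → ℕ) → Prop, Null B ∧
      ∀ v ∈ V l, ∀ n, ¬ B n → ∀ (a : ℝ) (T : Finset ℕ),
        (∀ t ∈ T, |ℓ (q (Function.update n l t) v) - a| < R) → T.card ≤ K := by
    intro l
    have h1 : ∀ v : J, ∃ K : ℕ, v ∈ V l → (0 < K ∧ Null (Bad (fun n v => ℓ (q n v)) v l R K)) := by
      intro v
      by_cases hv : v ∈ V l
      · obtain ⟨K, hK, hB⟩ := hq.line v (Finset.mem_filter.1 hv).1 l (Finset.mem_filter.1 hv).2 R hR0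
        exact ⟨K, fun _ => ⟨hK, hB⟩⟩
      · exact ⟨0, fun h => absurd h hv⟩
    choose K h2 using h1
    refine ⟨∑ v ∈ V l, K v + 1, Nat.succ_pos _, fun n => ∃ v ∈ V l,
      Bad (fun n v => ℓ (q n v)) v l R (K v) n,
      null_exists fun v hv => (h2 v hv).2, fun v hv n hn a T hT => ?_⟩
    have h3 : T.card ≤ K v := by
      by_contra hcon
      exact hn ⟨v, hv, a, T, hT, not_le.1 hcon⟩
    have h4 : K v ≤ ∑ v ∈ V l, K v := Finset.single_le_sum (fun _ _ => Nat.zero_le _) hv
    omega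
  choose L hL B hB hcnt using hline'
  have hlines : ∀ᵐ x ∂μ, ∀ l : Fin k, ∀ᶠ M : ℕ in atTop, ∀ n ∈ bxs (fun _ : Fin k => M), ¬ B l n →
      |∑ t ∈ Finset.range M, ∑ v ∈ V l, DD (V l) Φ ℓ R F H (W (Function.update n l t))
        (q (Function.update n l t)) v x| ≤ (η / 2) * M := by
    rw [ae_all_iff]
    intro l
    exact lines_ae' hFl hA hY l hsr hR hR0
      (fun w hw => ⟨hF w (hVS l hw), hF1 w⟩) (fun v hv => hH v (hVS l hv)) hW (hL l) (hcnt l)
      (by positivity)
  have hfr : ∀ᶠ N : Fin k → ℕ in atTop, ∀ l, frac (B l) N ≤ η / 2 := by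
    refine eventually_all.2 fun l => ?_
    filter_upwards [(tendsto_order.mp (hB l)).2 (η / 2) (by positivity)] with N hN
    exact hN.le
  filter_upwards [hlines] with x hx
  obtain ⟨M₀, hM₀⟩ := eventually_atTop.1 (eventually_all.2 hx)
  have hbig : ∀ᶠ N : Fin k → ℕ in atTop, ∀ j, max M₀ 1 ≤ N j :=
    eventually_atTop.2 ⟨fun _ => max M₀ 1, fun N hN j => hN j⟩
  filter_upwards [hbig, hfr] with N hN hfrN
  have hN1 : ∀ j, 1 ≤ N j := fun j => (le_max_right _ _).trans (hN j)
  obtain ⟨l, hl⟩ := Finite.exists_max N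
  have hNl : M₀ ≤ N l := (le_max_left _ _).trans (hN l)
  have hNlpos : (0 : ℝ) < N l := by
    have := hN1 l
    positivity
  have hVne : (V l).Nonempty := by
    obtain ⟨v, hv, h⟩ := hcov l
    exact ⟨v, Finset.mem_filter.2 ⟨hv, h⟩⟩
  have hfac : ∀ n : Fin k → ℕ, ∏ v, F v (Φ (q n v) x) =
      (∏ v ∈ S.filter (fun v => ¬ l ∈ dep v), F v (Φ (q n v) x)) *
        ((∏ v ∈ V l, F v (Φ (q n v) x)) * W n x) := by
    intro n
    show _ = _ * (_ * ∏ v ∈ Sᶜ, F v (Φ (q n v) x))
    rw [← Finset.prod_mul_prod_compl S, ← Finset.prod_filter_mul_prod_filter_not S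
      (fun v => l ∈ dep v)]
    ring
  have hinv : ∀ (n : Fin k → ℕ) (t : ℕ),
      ∏ v ∈ S.filter (fun v => ¬ l ∈ dep v), F v (Φ (q (Function.update n l t) v) x) =
      ∏ v ∈ S.filter (fun v => ¬ l ∈ dep v), F v (Φ (q n v) x) := by
    intro n t
    refine Finset.prod_congr rfl fun v hv => ?_
    rw [Finset.mem_filter] at hv
    rw [hdep v hv.1 l hv.2 n t]
  have herr0 : ∀ n : Fin k → ℕ, 0 ≤ errb Φ ℓ R H S (q n) x := by
    intro n
    unfold errb
    refine add_nonneg (Finset.sum_nonneg fun _ _ => abs_nonneg _) ?_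
    exact Finset.sum_nonneg fun _ _ => Finset.sum_nonneg fun _ _ => by split_ifs <;> norm_num
  have hline : ∀ n ∈ bxs N, |(N l : ℝ)⁻¹ * ∑ t ∈ Finset.range (N l),
      ∏ v, F v (Φ (q (Function.update n l t) v) x)| ≤
      η / 2 + ((N l : ℝ)⁻¹ * ∑ t ∈ Finset.range (N l),
        errb Φ ℓ R H S (q (Function.update n l t)) x + if B l n then (1 : ℝ) else 0) := by
    intro n hn
    have hn' : n ∈ bxs (fun _ : Fin k => N l) := bxs_mono hl hn
    have hE0 : 0 ≤ (N l : ℝ)⁻¹ * ∑ t ∈ Finset.range (N l),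
        errb Φ ℓ R H S (q (Function.update n l t)) x :=
      mul_nonneg (inv_pos.2 hNlpos).le (Finset.sum_nonneg fun t _ => herr0 _)
    by_cases hBn : B l n
    · rw [if_pos hBn, abs_mul, abs_of_pos (inv_pos.2 hNlpos)]
      have h1 : |∑ t ∈ Finset.range (N l), ∏ v, F v (Φ (q (Function.update n l t) v) x)| ≤ N l := by
        refine (Finset.abs_sum_le_sum_abs _ _).trans ?_
        refine (Finset.sum_le_sum (g := fun _ => (1 : ℝ)) fun t _ => ?_).trans (by simp)
        exact prod_abs_le (fun w _ => hF1 w) _ x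
      have h2 : (N l : ℝ)⁻¹ * |∑ t ∈ Finset.range (N l),
          ∏ v, F v (Φ (q (Function.update n l t) v) x)| ≤ 1 := by
        rw [inv_mul_le_iff₀ hNlpos, mul_one]
        exact h1
      linarith
    rw [if_neg hBn, add_zero]
    have e1 : ∑ t ∈ Finset.range (N l), ∏ v, F v (Φ (q (Function.update n l t) v) x) =
        (∏ v ∈ S.filter (fun v => ¬ l ∈ dep v), F v (Φ (q n v) x)) *
        ∑ t ∈ Finset.range (N l),
          ((∏ v ∈ V l, F v (Φ (q (Function.update n l t) v) x)) *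
            W (Function.update n l t) x) := by
      rw [Finset.mul_sum]
      refine Finset.sum_congr rfl fun t _ => ?_
      rw [hfac, hinv]
    rw [e1, abs_mul, abs_mul, abs_of_pos (inv_pos.2 hNlpos)]
    have hK := prod_abs_le (Φ := Φ) (V := S.filter (fun v => ¬ l ∈ dep v)) (F := F)
      (fun w _ => hF1 w) (q n) x
    set K := ∏ v ∈ S.filter (fun v => ¬ l ∈ dep v), F v (Φ (q n v) x) with hKdef
    have e2 : |∑ t ∈ Finset.range (N l),
          ((∏ v ∈ V l, F v (Φ (q (Function.update n l t) v) x)) *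
            W (Function.update n l t) x)| ≤ (η / 2) * N l + ∑ t ∈ Finset.range (N l),
        errb Φ ℓ R H S (q (Function.update n l t)) x := by
      have e3 : ∑ t ∈ Finset.range (N l),
          ((∏ v ∈ V l, F v (Φ (q (Function.update n l t) v) x)) *
            W (Function.update n l t) x) =
          ∑ t ∈ Finset.range (N l), ∑ v ∈ V l, DD (V l) Φ ℓ R F H (W (Function.update n l t))
            (q (Function.update n l t)) v x +
          ∑ t ∈ Finset.range (N l), ((∏ v ∈ V l, F v (Φ (q (Function.update n l t) v) x)) *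
            W (Function.update n l t) x - ∑ v ∈ V l, DD (V l) Φ ℓ R F H
              (W (Function.update n l t)) (q (Function.update n l t)) v x) := by
        rw [← Finset.sum_add_distrib]
        refine Finset.sum_congr rfl fun t _ => ?_
        ring
      rw [e3]
      refine (abs_add_le _ _).trans (add_le_add (hM₀ _ hNl l n hn' hBn) ?_)
      refine (Finset.abs_sum_le_sum_abs _ _).trans (Finset.sum_le_sum fun t _ => ?_)
      refine (pointwise hVne hR0 (fun w _ => hF1 w) (hW _).2 _ x).trans ?_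
      exact errb_mono (Φ := Φ) (ℓ := ℓ) R H (hVS l) _ x
    calc (N l : ℝ)⁻¹ * (|K| * |∑ t ∈ Finset.range (N l),
          ((∏ v ∈ V l, F v (Φ (q (Function.update n l t) v) x)) *
            W (Function.update n l t) x)|) ≤
          (N l : ℝ)⁻¹ * (1 * ((η / 2) * N l + ∑ t ∈ Finset.range (N l),
            errb Φ ℓ R H S (q (Function.update n l t)) x)) := by
          refine mul_le_mul_of_nonneg_left ?_ (inv_pos.2 hNlpos).le
          exact mul_le_mul hK e2 (abs_nonneg _) zero_le_one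
      _ = _ := by
          field_simp
  rw [bx_slice hN1 l]
  refine bx_abs.trans ((bx_mono_of hline).trans ?_)
  rw [bx_add, bx_add, ← bx_slice hN1 l (fun n => errb Φ ℓ R H S (q n) x)]
  have h6 := bx_const_le (k := k) (N := N) (C := η / 2) (by positivity)
  have h7 := hfrN l
  rw [frac_eq] at h7
  linarith

end Pool.Agent.U547.KP
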