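import Pool.Agent.U547.KP.P2

/-!
# Convergence to zero on boxes
-/

set_option autoImplicit false
set_option linter.unusedSectionVars false

open MeasureTheory Filter Topology
open scoped ENNReal

noncomputable section

namespace Pool.Agent.U547.KP

open Pool.Agent.TH784.KE
open Pool.Agent.U547.KB
open Pool.Agent.W761.Box (bx bxc BM Good1 good1 prod_update bxc_add bxc_sub bxc_mul bxc_norm
  bx_mono bx_mul bx_add bx_sum bx_succ int_lim_le' bx_nonneg)

variable {X : Type*} {mA mY mX : MeasurableSpace X} {μ : Measure X} [IsProbabilityMeasure μ]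
variable {G : Type*} [Group G]
variable {Φ : G →* Equiv.Perm X} {ℓ : G → ℝ}
variable {J : Type*} [DecidableEq J] [Fintype J]

/-- **Convergence to zero.** -/
theorem wide_zero {k : ℕ} (hk : 0 < k) (hFl : Flow μ Φ) (hA : Filt mX mA Φ ℓ) (hY : Base mY mA Φ)
    {S : Finset J} {dep : J → Finset (Fin k)} {q : (Fin k → ℕ) → J → G}
    (hq : Wide S dep fun n v => ℓ (q n v))
    (hdep : ∀ v ∈ S, ∀ l ∉ dep v, ∀ n t, q (Function.update n l t) v = q n v)
    (hcov : ∀ l, ∃ v ∈ S, l ∈ dep v)
    (hgood : ∀ v ∈ S, Maj μ fun n => (Φ (q n v) : X → X))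
    {F : J → X → ℝ} {r : G}
    (hF : ∀ v ∈ S, Measurable[cm mA Φ r] (F v)) (hF1 : ∀ v x, |F v x| ≤ 1)
    (hFY : ∀ v ∉ S, Measurable[mY] (F v))
    (hsm : ∀ ε : ℝ, 0 < ε → ∃ s : G, ℓ s ≤ ℓ r ∧ ∃ H : J → X → ℝ,
      (∀ v ∈ S, CE μ (cm mA Φ s) (F v) (H v)) ∧ ∀ v ∈ S, ∫ x, |H v x| ∂μ ≤ ε) :
    ∀ᵐ x ∂μ, Tendsto (fun N => bx k N fun n => ∏ v, F v (Φ (q n v) x)) atTop (𝓝 0) := by
  classical
  have hbad : ∀ δ : ℝ, 0 < δ → ∀ᵐ x ∂μ, ∀ᶠ N : Fin k → ℕ in atTop,
      |bx k N fun n => ∏ v, F v (Φ (q n v) x)| ≤ δ := by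
    intro δ hδ
    rw [ae_iff, ← nonpos_iff_eq_zero]
    apply ENNReal.le_of_forall_pos_le_add
    intro ε hε _
    rw [zero_add]
    have hε' : (0 : ℝ) < ε := by exact_mod_cast hε
    obtain ⟨s, hsr, H, hH, hHs⟩ := hsm (ε * (δ / 4) / (3 * (S.card + 1))) (by positivity)
    set R : ℝ := max (ℓ r - ℓ s) 1 with hRdef
    have hR : ℓ r - ℓ s ≤ R := le_max_left _ _
    have hR0 : 0 < R := lt_of_lt_of_le one_pos (le_max_right _ _)
    have hHm : ∀ v ∈ S, Measurable (H v) := fun v hv => (hH v hv).1.mono (cm_le hFl hA s) le_rfl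
    have hE' : ∀ v ∈ S, ∃ E : X → ℝ, 0 ≤ᵐ[μ] E ∧ Integrable E μ ∧
        ∫ x, E x ∂μ ≤ 3 * ∫ x, |H v x| ∂μ ∧
        ∀ᵐ x ∂μ, ∀ c : ℝ, E x < c → ∀ᶠ N in atTop,
          bx k N (fun n => |H v (Φ (q n v) x)|) < c := fun v hv =>
      hgood v hv (fun x => |H v x|) (hHm v hv).abs
        ⟨1, fun x => by rw [abs_abs]; exact (hH v hv).2.1 x⟩ (fun x => abs_nonneg _)
    choose! E hE using hE'
    let T : X → ℝ := fun x => ∑ v ∈ S, E v x
    have hT0 : 0 ≤ᵐ[μ] T := by
      have : ∀ᵐ x ∂μ, ∀ v ∈ S, 0 ≤ E v x :=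
        (ae_ball_iff S.countable_toSet).2 fun v hv => (hE v hv).1
      filter_upwards [this] with x hx
      exact Finset.sum_nonneg hx
    have hTi : Integrable T μ := integrable_finsetSum _ fun v hv => (hE v hv).2.1
    have hTint : ∫ x, T x ∂μ ≤ ε * (δ / 4) := by
      have : ∫ x, T x ∂μ = ∑ v ∈ S, ∫ x, E v x ∂μ :=
        integral_finsetSum _ fun v hv => (hE v hv).2.1
      rw [this]
      have h3 : ∀ v ∈ S, ∫ x, E v x ∂μ ≤ ε * (δ / 4) / (S.card + 1) := by
        intro v hv
        refine (hE v hv).2.2.1.trans ?_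
        have h4 := mul_le_mul_of_nonneg_left (hHs v hv) (by norm_num : (0 : ℝ) ≤ 3)
        refine h4.trans (le_of_eq ?_)
        field_simp
      refine (Finset.sum_le_sum h3).trans ?_
      rw [Finset.sum_const, nsmul_eq_mul, mul_div_assoc', div_le_iff₀ (by positivity)]
      have : 0 ≤ ε * (δ / 4) := by positivity
      nlinarith
    have hmark := mul_meas_ge_le_integral_of_nonneg hT0 hTi (δ / 4)
    have hmark' : μ.real {x | δ / 4 ≤ T x} ≤ ε := by
      have h5 : δ / 4 * μ.real {x | δ / 4 ≤ T x} ≤ δ / 4 * ε := by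
        refine (hmark.trans hTint).trans ?_
        rw [mul_comm]
      exact le_of_mul_le_mul_left h5 (by positivity)
    have hmain := wide_bound (η := δ / 4) hk hFl hA hY hq hdep hcov hsr hR hR0 hF hF1 hFY hH
      (by positivity)
    have hEall : ∀ᵐ x ∂μ, ∀ v ∈ S, ∀ c : ℝ, E v x < c → ∀ᶠ N in atTop,
        bx k N (fun n => |H v (Φ (q n v) x)|) < c :=
      (ae_ball_iff S.countable_toSet).2 fun v hv => (hE v hv).2.2.2
    have hclose : Tendsto (fun N => ∑ v ∈ S, ∑ w ∈ S.erase v, bx k N
        (fun n => if |ℓ (q n v) - ℓ (q n w)| < R then (1 : ℝ) else 0))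
        atTop (𝓝 0) := by
      have h5 : Tendsto (fun N => ∑ v ∈ S, ∑ w ∈ S.erase v, bx k N
          (fun n => if |ℓ (q n v) - ℓ (q n w)| < R then (1 : ℝ) else 0))
          atTop (𝓝 (∑ v ∈ S, ∑ _w ∈ S.erase v, (0 : ℝ))) := by
        refine tendsto_finsetSum _ fun v hv => tendsto_finsetSum _ fun w hw => ?_
        have h6 := hq.sep v hv w (Finset.mem_of_mem_erase hw) (Finset.ne_of_mem_erase hw).symm R hR0
        refine Tendsto.congr (fun N => ?_) h6
        rw [frac_eq]
      rw [Finset.sum_eq_zero fun v _ => Finset.sum_const_zero] at h5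
      exact h5
    have hsub : ∀ᵐ x ∂μ, x ∈ {x | ¬ ∀ᶠ N : Fin k → ℕ in atTop,
        |bx k N fun n => ∏ v, F v (Φ (q n v) x)| ≤ δ} → x ∈ {x | δ / 4 ≤ T x} := by
      filter_upwards [hmain, hEall] with x hx1 hx2 hx3
      show δ / 4 ≤ T x
      by_contra hcon
      rw [not_le] at hcon
      apply hx3
      set τ : ℝ := (δ / 4 - T x) / (S.card + 1) with hτ
      have hτ0 : 0 < τ := div_pos (by linarith) (by positivity)
      have h6 : ∀ᶠ N in atTop, ∀ v ∈ S, bx k N (fun n => |H v (Φ (q n v) x)|) < E v x + τ :=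
        (Finset.eventually_all S).2 fun v hv => hx2 v hv _ (by linarith)
      have h7 : ∀ᶠ N in atTop, ∑ v ∈ S, (bx k N fun n => |H v (Φ (q n v) x)|) ≤ δ / 4 := by
        filter_upwards [h6] with N hN
        refine (Finset.sum_le_sum fun v hv => (hN v hv).le).trans ?_
        rw [Finset.sum_add_distrib, Finset.sum_const, nsmul_eq_mul]
        have h9 : (S.card : ℝ) * τ ≤ δ / 4 - T x := by
          rw [hτ, mul_div_assoc', div_le_iff₀ (by positivity)]
          nlinarith
        have h10 : ∑ v ∈ S, E v x = T x := rfl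
        linarith
      have h8 := (tendsto_order.mp hclose).2 (δ / 4) (by positivity)
      filter_upwards [hx1, h7, h8] with N hN1 hN2 hN3
      refine hN1.trans ?_
      have e : (bx k N fun n => errb Φ ℓ R H S (q n) x) =
          ∑ v ∈ S, (bx k N fun n => |H v (Φ (q n v) x)|) +
          ∑ v ∈ S, ∑ w ∈ S.erase v, bx k N
            (fun n => if |ℓ (q n v) - ℓ (q n w)| < R then (1 : ℝ) else 0) := by
        unfold errb
        rw [bx_add, bx_sum, bx_sum]
        congr 1
        refine Finset.sum_congr rfl fun v _ => ?_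
        rw [bx_sum]
      rw [e]
      linarith
    have h10 : μ {x | ¬ ∀ᶠ N : Fin k → ℕ in atTop,
        |bx k N fun n => ∏ v, F v (Φ (q n v) x)| ≤ δ} ≤ μ {x | δ / 4 ≤ T x} :=
      measure_mono_ae hsub
    refine h10.trans ?_
    have h9 : μ {x | δ / 4 ≤ T x} = ENNReal.ofReal (μ.real {x | δ / 4 ≤ T x}) := by
      rw [measureReal_def, ENNReal.ofReal_toReal (measure_ne_top _ _)]
    rw [h9]
    calc ENNReal.ofReal (μ.real {x | δ / 4 ≤ T x}) ≤ ENNReal.ofReal (ε : ℝ) :=
          ENNReal.ofReal_le_ofReal hmark'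
      _ = ε := ENNReal.ofReal_coe_nnreal
  have hall := ae_all_iff.mpr fun i : ℕ => hbad (1 / ((i : ℝ) + 1)) (by positivity)
  filter_upwards [hall] with x hx
  rw [Metric.tendsto_nhds]
  intro ε hε
  obtain ⟨i, hi⟩ := exists_nat_one_div_lt hε
  filter_upwards [hx i] with N hN
  rw [Real.dist_eq, sub_zero]
  exact hN.trans_lt hi


theorem wide_real {k : ℕ} (hk : 0 < k) (hK : KExt μ mA mY Φ ℓ) {s₀ : G} (hs₀ : 0 < ℓ s₀)
    {S : Finset J} {dep : J → Finset (Fin k)} {q : (Fin k → ℕ) → J → G}
    (hq : Wide S dep fun n v => ℓ (q n v))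
    (hdep : ∀ v ∈ S, ∀ l ∉ dep v, ∀ n t, q (Function.update n l t) v = q n v)
    (hcov : ∀ l, ∃ v ∈ S, l ∈ dep v)
    (hgood : ∀ v, Maj μ fun n => (Φ (q n v) : X → X))
    {f : J → X → ℝ} (hf : ∀ v, Adm μ mA mY Φ S v (f v)) :
    ∀ᵐ x ∂μ, Tendsto (fun N => bx k N fun n => ∏ v, f v (Φ (q n v) x)) atTop (𝓝 0) := by
  classical
  have hr' : ∀ v : J, ∃ r : G, v ∈ S → Measurable[cm mA Φ r] (f v) := by
    intro v
    by_cases hv : v ∈ S
    · obtain ⟨⟨r, hr⟩, _⟩ := (hf v).2.1 hv
      exact ⟨r, fun _ => hr⟩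
    · exact ⟨1, fun h => absurd h hv⟩
  choose r₀ hr₀ using hr'
  obtain ⟨r, hr⟩ := exists_upper hK.filt hs₀ r₀
  have hFm : ∀ v ∈ S, Measurable[cm mA Φ r] (f v) := fun v hv =>
    (hr₀ v hv).mono (cm_mono hK.filt (hr v)) le_rfl
  have hFmX : ∀ v ∈ S, Measurable (f v) := fun v hv =>
    (hFm v hv).mono (cm_le hK.fl hK.filt r) le_rfl
  refine wide_zero hk hK.fl hK.filt hK.base hq hdep hcov (fun v _ => hgood v) hFm
    (fun v => (hf v).1)
    (fun v hv => (hf v).2.2 hv) fun ε hε => ?_
  have hs' : ∀ v : J, ∃ s₁ : G, v ∈ S → ∀ s : G, ℓ s ≤ ℓ s₁ →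
      ∫ x, |(μ[f v | cm mA Φ s]) x| ∂μ ≤ ε := by
    intro v
    by_cases hv : v ∈ S
    · obtain ⟨s₁, hs₁⟩ := small_past' hK.fl hK.filt hs₀ hK.tail (hFmX v hv) (hf v).1
        ((hf v).2.1 hv).2 hε
      exact ⟨s₁, fun _ => hs₁⟩
    · exact ⟨1, fun h => absurd h hv⟩
  choose s₁ hs₁ using hs'
  obtain ⟨s₂, hs₂⟩ := exists_lower hK.filt hs₀ s₁
  obtain ⟨s, hs⟩ := exists_lower (J := Bool) hK.filt hs₀ (fun b => if b then s₂ else r)
  have hss₂ : ℓ s ≤ ℓ s₂ := hs true
  have hsr : ℓ s ≤ ℓ r := hs false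
  have hG' : ∀ v : J, ∃ g : X → ℝ, v ∈ S → (CE μ (cm mA Φ s) (f v) g ∧
      g =ᵐ[μ] μ[f v | cm mA Φ s]) := by
    intro v
    by_cases hv : v ∈ S
    · obtain ⟨g, hg⟩ := exists_CE (cm_le hK.fl hK.filt s) (hFmX v hv) (hf v).1 (μ := μ)
      exact ⟨g, fun _ => hg⟩
    · exact ⟨0, fun h => absurd h hv⟩
  choose G hG using hG'
  refine ⟨s, hsr, G, fun v hv => (hG v hv).1, fun v hv => ?_⟩
  have e : ∫ x, |G v x| ∂μ = ∫ x, |(μ[f v | cm mA Φ s]) x| ∂μ := by
    apply integral_congr_ae
    filter_upwards [(hG v hv).2] with x hx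
    rw [hx]
  rw [e]
  exact hs₁ v hv s (hss₂.trans (hs₂ v))


/-- **Convergence to zero.** -/
theorem wide_complex {k : ℕ} (hk : 0 < k) (hK : KExt μ mA mY Φ ℓ) {s₀ : G} (hs₀ : 0 < ℓ s₀)
    {S : Finset J} {dep : J → Finset (Fin k)} {q : (Fin k → ℕ) → J → G}
    (hq : Wide S dep fun n v => ℓ (q n v))
    (hdep : ∀ v ∈ S, ∀ l ∉ dep v, ∀ n t, q (Function.update n l t) v = q n v)
    (hcov : ∀ l, ∃ v ∈ S, l ∈ dep v)
    (hgood : ∀ v, Maj μ fun n => (Φ (q n v) : X → X))
    {F : J → X → ℂ} (hF : ∀ v, AdmC μ mY S v (F v)) :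
    Cz μ (fun v n => (Φ (q n v) : X → X)) F := by
  classical
  set g : J → (Fin k → ℕ) → X → X := fun v n => (Φ (q n v) : X → X) with hg
  have key : ∀ (B : Finset J) (F : J → X → ℂ), (∀ v ∈ B, AdmC μ mY S v (F v)) →
      (∀ v ∉ B, ∃ f : X → ℝ, Adm μ mA mY Φ S v f ∧ F v = fun x => (f x : ℂ)) → Cz μ g F := by
    intro B
    induction B using Finset.induction_on with
    | empty =>
      intro F _ hF2
      choose f hf hFf using fun v => hF2 v (Finset.notMem_empty v)
      have h4 := wide_real hk hK hs₀ hq hdep hcov hgood hf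
      filter_upwards [h4] with x hx
      have h5 := (Complex.continuous_ofReal.tendsto _).comp hx
      rw [Complex.ofReal_zero] at h5
      refine h5.congr fun N => ?_
      rw [Function.comp_apply, ← bxc_cast]
      congr 1
      funext n
      push_cast
      refine Finset.prod_congr rfl fun v _ => ?_
      rw [hFf v]
    | insert v B hv ih =>
      intro F hF1 hF2
      have hBMall : ∀ w, BM (F w) := by
        intro w
        by_cases hw : w ∈ insert v B
        · exact (hF1 w hw).1
        · obtain ⟨f, hf, e⟩ := hF2 w hw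
          rw [e]
          exact hf.bm hK
      have hcast : ∀ f : X → ℝ, Adm μ mA mY Φ S v f →
          Cz μ g (Function.update F v fun x => (f x : ℂ)) := by
        intro f hf
        apply ih
        · intro w hw
          have hwv : w ≠ v := fun e => hv (e ▸ hw)
          rw [Function.update_of_ne hwv]
          exact hF1 w (Finset.mem_insert_of_mem hw)
        · intro w hw
          by_cases hwv : w = v
          · subst hwv
            exact ⟨f, hf, by rw [Function.update_self]⟩
          · rw [Function.update_of_ne hwv]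
            apply hF2
            intro hmem
            rcases Finset.mem_insert.mp hmem with h5 | h5
            · exact hwv h5
            · exact hw h5
      have hcomb : ∀ (C : ℝ) (f₁ f₂ : X → ℝ), Adm μ mA mY Φ S v f₁ → Adm μ mA mY Φ S v f₂ →
          Cz μ g (Function.update F v (((C : ℂ) • fun x => (f₁ x : ℂ)) +
            ((C : ℂ) * Complex.I) • fun x => (f₂ x : ℂ))) := by
        intro C f₁ f₂ hf₁ hf₂
        exact Cz_add (Cz_smul _ (hcast f₁ hf₁)) (Cz_smul _ (hcast f₂ hf₂))
      obtain ⟨hBM, hSv, hSv'⟩ := hF1 v (Finset.mem_insert_self v B)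
      obtain ⟨hFm, C₀, hC₀⟩ := hBM
      set C : ℝ := |C₀| + 1 with hC
      have hCpos : 0 < C := by positivity
      have hCb : ∀ x, ‖F v x‖ ≤ C := fun x =>
        ((hC₀ x).trans (le_abs_self _)).trans (by rw [hC]; linarith)
      set f₁ : X → ℝ := fun x => (F v x).re / C with hf₁
      set f₂ : X → ℝ := fun x => (F v x).im / C with hf₂
      have hb₁ : ∀ x, |f₁ x| ≤ 1 := by
        intro x
        rw [hf₁]
        show |(F v x).re / C| ≤ 1
        rw [abs_div, abs_of_pos hCpos, div_le_one hCpos]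
        exact (Complex.abs_re_le_norm _).trans (hCb x)
      have hb₂ : ∀ x, |f₂ x| ≤ 1 := by
        intro x
        rw [hf₂]
        show |(F v x).im / C| ≤ 1
        rw [abs_div, abs_of_pos hCpos, div_le_one hCpos]
        exact (Complex.abs_im_le_norm _).trans (hCb x)
      have hm₁ : Measurable f₁ := (Complex.measurable_re.comp hFm).div_const _
      have hm₂ : Measurable f₂ := (Complex.measurable_im.comp hFm).div_const _
      have hdec : ∀ x, F v x = (C : ℂ) * (f₁ x : ℂ) + (C : ℂ) * Complex.I * (f₂ x : ℂ) := by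
        intro x
        have hC' : (C : ℂ) ≠ 0 := by exact_mod_cast hCpos.ne'
        rw [hf₁, hf₂]
        push_cast
        field_simp
        exact (Complex.re_add_im (F v x)).symm.trans (by ring)
      have hgoal : Cz μ g (Function.update F v (F v)) := by
        by_cases hvS : v ∈ S
        · have hFi : Integrable (F v) μ := Integrable.of_bound hFm.aestronglyMeasurable C
            (Eventually.of_forall hCb)
          have hV₁ : Van μ mY f₁ := by
            intro B hB
            have h4 := hSv hvS B hB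
            have h5 : ∫ x in B, f₁ x ∂μ = (∫ x in B, F v x ∂μ).re / C := by
              rw [hf₁, integral_div]
              congr 1
              exact integral_re hFi.integrableOn
            rw [h5, h4]
            simp
          have hV₂ : Van μ mY f₂ := by
            intro B hB
            have h4 := hSv hvS B hB
            have h5 : ∫ x in B, f₂ x ∂μ = (∫ x in B, F v x ∂μ).im / C := by
              rw [hf₂, integral_div]
              congr 1
              exact integral_im hFi.integrableOn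
            rw [h5, h4]
            simp
          refine Cz_closed' (fun w n => hK.fl _) hgood hBMall ⟨hFm, C, hCb⟩ ?_
          intro ε hε
          have happ : ∀ f : X → ℝ, Measurable f → (∀ x, |f x| ≤ 1) → Van μ mY f →
              ∃ g' : X → ℝ, Adm μ mA mY Φ S v g' ∧ ∫ x, |f x - g' x| ∂μ ≤ ε / (2 * C) := by
            intro f hfm hfb hfV
            obtain ⟨r, hr⟩ := dense_future hK.fl hK.filt hs₀ hK.gen hfm hfb
              (show (0 : ℝ) < ε / (2 * C) by positivity)
            obtain ⟨g', hg', hge⟩ := exists_CE (cm_le hK.fl hK.filt r) hfm hfb (μ := μ)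
            refine ⟨g', ⟨hg'.2.1, fun _ => ⟨⟨r, hg'.1⟩, van_CE (cm_le hK.fl hK.filt r)
              (base_le hK.base r) hfm hfb hg' hfV⟩, fun h => absurd hvS h⟩, ?_⟩
            refine le_trans (le_of_eq ?_) hr
            apply integral_congr_ae
            filter_upwards [hge] with x hx
            rw [hx]
          obtain ⟨g₁, hg₁, hg₁'⟩ := happ f₁ hm₁ hb₁ hV₁
          obtain ⟨g₂, hg₂, hg₂'⟩ := happ f₂ hm₂ hb₂ hV₂
          obtain ⟨hg₁m, -⟩ := hg₁.bm hK
          obtain ⟨hg₂m, -⟩ := hg₂.bm hK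
          have hg₁r : Measurable g₁ := by
            have := Complex.measurable_re.comp hg₁m
            exact this
          have hg₂r : Measurable g₂ := by
            have := Complex.measurable_re.comp hg₂m
            exact this
          refine ⟨((C : ℂ) • fun x => (g₁ x : ℂ)) + ((C : ℂ) * Complex.I) • fun x => (g₂ x : ℂ),
            ⟨(hg₁m.const_smul _).add (hg₂m.const_smul _), 2 * C, fun x => ?_⟩, ?_,
            hcomb C g₁ g₂ hg₁ hg₂⟩
          · simp only [Pi.add_apply, Pi.smul_apply, smul_eq_mul]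
            refine (norm_add_le _ _).trans ?_
            rw [norm_mul, norm_mul, norm_mul, Complex.norm_I, Complex.norm_real,
              Complex.norm_real, Complex.norm_real, Real.norm_of_nonneg hCpos.le,
              Real.norm_eq_abs, Real.norm_eq_abs]
            have a1 := hg₁.1 x
            have a2 := hg₂.1 x
            nlinarith [abs_nonneg (g₁ x), abs_nonneg (g₂ x)]
          · have hi₁ : Integrable (fun x => |f₁ x - g₁ x|) μ := by
              refine Integrable.of_bound (hm₁.sub hg₁r).abs.aestronglyMeasurable 2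
                (Eventually.of_forall fun x => ?_)
              rw [Real.norm_eq_abs, abs_abs]
              exact (abs_sub _ _).trans (by linarith [hb₁ x, hg₁.1 x])
            have hi₂ : Integrable (fun x => |f₂ x - g₂ x|) μ := by
              refine Integrable.of_bound (hm₂.sub hg₂r).abs.aestronglyMeasurable 2
                (Eventually.of_forall fun x => ?_)
              rw [Real.norm_eq_abs, abs_abs]
              exact (abs_sub _ _).trans (by linarith [hb₂ x, hg₂.1 x])
            have hle : ∀ x, ‖F v x - (((C : ℂ) • fun x => (g₁ x : ℂ)) +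
                ((C : ℂ) * Complex.I) • fun x => (g₂ x : ℂ)) x‖ ≤
                C * |f₁ x - g₁ x| + C * |f₂ x - g₂ x| := by
              intro x
              simp only [Pi.add_apply, Pi.smul_apply, smul_eq_mul]
              rw [hdec x]
              have e : (C : ℂ) * (f₁ x : ℂ) + (C : ℂ) * Complex.I * (f₂ x : ℂ) -
                  ((C : ℂ) * (g₁ x : ℂ) + (C : ℂ) * Complex.I * (g₂ x : ℂ)) =
                  (C : ℂ) * ((f₁ x - g₁ x : ℝ) : ℂ) +
                    (C : ℂ) * Complex.I * ((f₂ x - g₂ x : ℝ) : ℂ) := by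
                push_cast
                ring
              rw [e]
              refine (norm_add_le _ _).trans ?_
              rw [norm_mul, norm_mul, norm_mul, Complex.norm_I, Complex.norm_real,
                Complex.norm_real, Complex.norm_real, Real.norm_of_nonneg hCpos.le,
                Real.norm_eq_abs, Real.norm_eq_abs, mul_one]
            refine (integral_mono_of_nonneg (Eventually.of_forall fun x => norm_nonneg _)
              ((hi₁.const_mul C).add (hi₂.const_mul C)) (Eventually.of_forall hle)).trans ?_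
            rw [integral_add' (hi₁.const_mul C) (hi₂.const_mul C), integral_const_mul,
              integral_const_mul]
            calc C * ∫ x, |f₁ x - g₁ x| ∂μ + C * ∫ x, |f₂ x - g₂ x| ∂μ ≤
                C * (ε / (2 * C)) + C * (ε / (2 * C)) :=
                  add_le_add (mul_le_mul_of_nonneg_left hg₁' hCpos.le)
                    (mul_le_mul_of_nonneg_left hg₂' hCpos.le)
              _ = ε := by field_simp; norm_num
        · have hFY := hSv' hvS
          have a₁ : Adm μ mA mY Φ S v f₁ := ⟨hb₁, fun h => absurd h hvS, fun _ =>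
            (Complex.measurable_re.comp hFY).div_const _⟩
          have a₂ : Adm μ mA mY Φ S v f₂ := ⟨hb₂, fun h => absurd h hvS, fun _ =>
            (Complex.measurable_im.comp hFY).div_const _⟩
          have e : F v = ((C : ℂ) • fun x => (f₁ x : ℂ)) +
              ((C : ℂ) * Complex.I) • fun x => (f₂ x : ℂ) := by
            funext x
            simp only [Pi.add_apply, Pi.smul_apply, smul_eq_mul]
            exact hdec x
          have h6 := hcomb C f₁ f₂ a₁ a₂
          rw [← e] at h6
          exact h6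
      rwa [Function.update_eq_self] at hgoal
  exact key Finset.univ F (fun v _ => hF v) fun v hv => absurd (Finset.mem_univ v) hv


/-- **The base is characteristic.** -/
theorem wide_char {k : ℕ} (hk : 0 < k) (hK : KExt μ mA mY Φ ℓ) {s₀ : G} (hs₀ : 0 < ℓ s₀) {q : (Fin k → ℕ) → J → G}
    (hq : Wide Finset.univ (fun _ => Finset.univ) fun n v => ℓ (q n v))
    (hgood : ∀ v, Maj μ fun n => (Φ (q n v) : X → X)) {f e : J → X → ℂ}
    (hf : ∀ j, @BM X mX (f j)) (he : ∀ j, @BM X mX (e j)) (heY : ∀ j, Measurable[mY] (e j))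
    (hfe : ∀ j, ∀ B : Set X, MeasurableSet[mY] B → ∫ x in B, (f j x - e j x) ∂μ = 0) :
    ∀ᵐ x ∂μ, Tendsto (fun N => bxc k N fun n => (∏ j, f j (Φ (q n j) x) -
      ∏ j, e j (Φ (q n j) x))) atTop (𝓝 0) := by
  classical
  have key : ∀ t : Finset J, t ≠ ∅ → ∀ᵐ x ∂μ, Tendsto (fun N => bxc k N fun n =>
      (∏ j ∈ t, (f j (Φ (q n j) x) - e j (Φ (q n j) x))) *
        ∏ j ∈ Finset.univ \ t, e j (Φ (q n j) x)) atTop (𝓝 0) := by
    intro t ht
    have hz := wide_complex hk hK hs₀ (S := t) (q := q) (dep := fun _ => Finset.univ)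
      ⟨fun v _ => hq.line v (Finset.mem_univ v),
        fun v _ w _ h => hq.sep v (Finset.mem_univ v) w (Finset.mem_univ w) h⟩
      (fun v _ l hl => absurd (Finset.mem_univ l) hl)
      (fun l => by
        obtain ⟨j, hj⟩ := Finset.nonempty_of_ne_empty ht
        exact ⟨j, hj, Finset.mem_univ l⟩) hgood
      (F := fun j => if j ∈ t then (fun x => f j x - e j x) else e j) (fun v => by
        by_cases hv : v ∈ t
        · simp only [hv, if_true]
          obtain ⟨m₁, C₁, b₁⟩ := hf v
          obtain ⟨m₂, C₂, b₂⟩ := he v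
          exact ⟨⟨m₁.sub m₂, C₁ + C₂, fun x => (norm_sub_le _ _).trans
            (add_le_add (b₁ x) (b₂ x))⟩, fun _ => hfe v, fun h => absurd hv h⟩
        · simp only [hv, if_false]
          exact ⟨he v, fun h => absurd h hv, fun _ => heY v⟩)
    filter_upwards [hz] with x hx
    refine hx.congr fun N => ?_
    congr 1
    funext n
    rw [← Finset.prod_mul_prod_compl t, ← Finset.compl_eq_univ_sdiff]
    congr 1
    · refine Finset.prod_congr rfl fun j hj => ?_
      rw [if_pos hj]
    · refine Finset.prod_congr rfl fun j hj => ?_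
      rw [if_neg (Finset.mem_compl.1 hj)]
  have hall : ∀ᵐ x ∂μ, ∀ t : Finset J, t ≠ ∅ → Tendsto (fun N => bxc k N fun n =>
      (∏ j ∈ t, (f j (Φ (q n j) x) - e j (Φ (q n j) x))) *
        ∏ j ∈ Finset.univ \ t, e j (Φ (q n j) x)) atTop (𝓝 0) := by
    rw [ae_all_iff]
    intro t
    by_cases ht : t = ∅
    · exact Eventually.of_forall fun x h => absurd ht h
    · filter_upwards [key t ht] with x hx _
      exact hx
  filter_upwards [hall] with x hx
  have hsum := tendsto_finsetSum ((Finset.univ : Finset J).powerset.erase ∅) fun t ht =>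
    hx t (Finset.ne_of_mem_erase ht)
  rw [Finset.sum_const_zero] at hsum
  refine hsum.congr fun N => ?_
  rw [← bxc_sum]
  congr 1
  funext n
  have h1 := Finset.prod_add (fun j => f j (Φ (q n j) x) - e j (Φ (q n j) x))
    (fun j => e j (Φ (q n j) x)) (Finset.univ : Finset J)
  have h2 : ∏ j, (f j (Φ (q n j) x) - e j (Φ (q n j) x) + e j (Φ (q n j) x)) =
      ∏ j, f j (Φ (q n j) x) := Finset.prod_congr rfl fun j _ => by ring
  rw [h2, ← Finset.add_sum_erase _ _ (Finset.empty_mem_powerset _)] at h1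
  rw [h1, Finset.prod_empty, one_mul, Finset.sdiff_empty]
  ring

end Pool.Agent.U547.KP
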