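import Pool.Agent.U547.KP.P3

/-!
# Kolmogorov actions: unrestricted boxes, missing variables; polynomials
-/

set_option autoImplicit false
set_option linter.unusedSectionVars false

open MeasureTheory Filter Topology
open scoped ENNReal

noncomputable section

namespace Pool.Agent.U547.KP

open Pool.Agent.TH784.KE
open Pool.Agent.U547.KB
open Pool.Agent.W761.Box (bx bxc BM Good1 bxc_add bxc_sub bxc_mul)

variable {k : ℕ}

/-- restriction of a small set to the variables on which it depends -/
theorem null_dep {D : Finset (Fin k)} (hD : D.Nonempty) {A : (Fin k → ℕ) → Prop}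
    (hA : Null A) (h : ∀ m, A m ↔ A (ext D 0 fun i => m (en D i))) :
    Null fun m : Fin D.card → ℕ => A (ext D 0 m) := by
  classical
  set E : (Fin D.card → ℕ) → Fin k → ℕ := fun N l =>
    if h : l ∈ D then N ((en D).symm ⟨l, h⟩) else ∑ i, N i with hE
  have hEt : Tendsto E atTop atTop := by
    have hc : 0 < D.card := Finset.card_pos.2 hD
    refine tendsto_atTop_atTop.2 fun b => ⟨fun _ => ∑ l, b l, fun N hN l => ?_⟩
    have h1 : ∀ i, ∑ l, b l ≤ N i := hN
    have h2 : b l ≤ ∑ l, b l := Finset.single_le_sum (fun _ _ => Nat.zero_le _)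
      (Finset.mem_univ l)
    show b l ≤ E N l
    rw [hE]
    dsimp only
    split_ifs with hl
    · exact h2.trans (h1 _)
    · refine (h2.trans (h1 ⟨0, hc⟩)).trans ?_
      exact Finset.single_le_sum (f := fun i => N i) (fun _ _ => Nat.zero_le _)
        (Finset.mem_univ (⟨0, hc⟩ : Fin D.card))
  refine (hA.comp hEt).congr' ?_
  have hEv : ∀ᶠ N : Fin D.card → ℕ in atTop, ∀ l, 1 ≤ E N l :=
    (hEt.eventually (eventually_ge_atTop (fun _ => 1))).mono fun N hN l => hN l
  filter_upwards [hEv] with N hN
  have h3 : (fun i => E N (en D i)) = N := by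
    funext i
    rw [hE]
    dsimp only
    rw [dif_pos (en D i).2]
    congr 1
    exact (en D).symm_apply_apply i
  have h4 := bx_dep D hN (fun m => if A (ext D 0 m) then (1 : ℝ) else 0)
  rw [h3] at h4
  rw [Function.comp_apply, frac_eq, frac_eq, ← h4]
  congr 1
  funext m
  by_cases hm : A m
  · rw [if_pos hm, if_pos ((h m).1 hm)]
  · rw [if_neg hm, if_neg fun h' => hm ((h m).2 h')]

section poly

variable {J : Type*} [DecidableEq J]

theorem wide_poly {S : Finset J} (L : J → MvPolynomial (Fin k) ℝ) {p : (Fin k → ℕ) → J → ℝ}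
    (hp : ∀ n v, p n v = ev (L v) n)
    (hsep : ∀ v ∈ S, ∀ w ∈ S, v ≠ w → ∃ l, 0 < (L v - L w).degreeOf l) :
    Wide S (fun v => Finset.univ.filter fun l => 0 < (L v).degreeOf l) p := by
  refine ⟨fun v _ l hl R hR => ?_, fun v hv w hw hvw R hR => ?_⟩
  · obtain ⟨K, hK, B, hB, h⟩ := lines_count (L v) l (Finset.mem_filter.1 hl).2 hR
    refine ⟨K, hK, null_mono (fun n hn => ?_) hB⟩
    obtain ⟨a, T, hT, hTK⟩ := hn
    by_contra hBn
    refine absurd (h n hBn a T fun t ht => ?_) (not_le.2 hTK)
    have := hT t ht
    rwa [hp] at this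
  · obtain ⟨l, hl⟩ := hsep v hv w hw hvw
    have h1 := values_null (L v - L w) l hl hR
    refine null_mono (fun n hn => ?_) h1
    show |ev (L v - L w) n| < R
    have h2 : ev (L v - L w) n = p n v - p n w := by
      rw [hp, hp, ev, ev, ev, map_sub]
    rw [h2]
    exact hn

end poly

variable {X : Type*} {mA mX : MeasurableSpace X} {μ : Measure X} [IsProbabilityMeasure μ]
variable {G : Type*} [Group G]
variable {Φ : G →* Equiv.Perm X} {ℓ : G → ℝ}
variable {J : Type*} [DecidableEq J] [Fintype J]

open Classical in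
/-- **Kolmogorov actions.** -/
theorem act_wide (hK : KExt μ mA ⊥ Φ ℓ) {s₀ : G} (hs₀ : 0 < ℓ s₀)
    {dep : J → Finset (Fin k)} {q : (Fin k → ℕ) → J → G}
    (hq : Wide Finset.univ dep fun n v => ℓ (q n v))
    (h1 : ∀ v, ∀ l ∉ dep v, ∀ n s, q (Function.update n l s) v = q n v)
    (h0 : ∀ v, ∃ l, l ∈ dep v)
    (hgood : ∀ v, Good1 μ fun n => (Φ (q n v) : X → X)) {f : J → X → ℂ}
    (hf : ∀ j, @BM X mX (f j)) :
    ∀ᵐ x ∂μ, Tendsto (fun N => bxc k N fun n => ∏ j, f j (Φ (q n j) x)) atTop
      (𝓝 (∏ j, ∫ y, f j y ∂μ)) := by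
  set c : J → ℂ := fun j => ∫ y, f j y ∂μ with hc
  have key : ∀ t : Finset J, t ≠ ∅ → ∀ᵐ x ∂μ, Tendsto (fun N => bxc k N fun n =>
      (∏ j ∈ t, (f j (Φ (q n j) x) - c j)) * ∏ j ∈ Finset.univ \ t, c j) atTop (𝓝 0) := by
    intro t ht
    obtain ⟨j₀, hj₀⟩ := Finset.nonempty_of_ne_empty ht
    set D : Finset (Fin k) := Finset.univ.filter fun l => ∃ v ∈ t, l ∈ dep v with hDdef
    have hmemD : ∀ l, l ∈ D ↔ ∃ v ∈ t, l ∈ dep v := by
      intro l
      rw [hDdef, Finset.mem_filter]
      simp
    obtain ⟨l₀, hl₀⟩ := h0 j₀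
    have hD : D.Nonempty := ⟨l₀, (hmemD l₀).2 ⟨j₀, hj₀, hl₀⟩⟩
    -- the maps depend on the variables in `D` only
    have hdep : ∀ v ∈ t, ∀ n, q n v = q (ext D 0 fun i => n (en D i)) v := by
      intro v hv
      have h5 : ∀ (B : Finset (Fin k)), (∀ l ∈ B, l ∉ D) → ∀ n : Fin k → ℕ,
          q n v = q (fun l => if l ∈ B then 0 else n l) v := by
        intro B
        induction B using Finset.induction_on with
        | empty => intro _ n; simp
        | insert l B hl ih =>
          intro hB n
          rw [ih (fun l' hl' => hB l' (Finset.mem_insert_of_mem hl')) n]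
          have h6 : l ∉ dep v := by
            intro h7
            exact hB l (Finset.mem_insert_self l B) ((hmemD l).2 ⟨v, hv, h7⟩)
          rw [← h1 v l h6 _ 0]
          congr 1
          funext i
          by_cases hi : i = l
          · subst hi
            simp
          · rw [Function.update_of_ne hi]
            simp [Finset.mem_insert, hi]
      intro n
      rw [h5 (Finset.univ \ D) (fun l hl => (Finset.mem_sdiff.1 hl).2) n]
      congr 1
      funext l
      by_cases hl : l ∈ D
      · rw [if_neg (fun h => (Finset.mem_sdiff.1 h).2 hl)]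
        unfold ext
        rw [dif_pos hl]
        show n l = n (en D ((en D).symm ⟨l, hl⟩))
        rw [Equiv.apply_symm_apply]
      · rw [if_pos (Finset.mem_sdiff.2 ⟨Finset.mem_univ l, hl⟩)]
        unfold ext
        rw [dif_neg hl]
    have hsame : ∀ v ∈ t, ∀ n n' : Fin k → ℕ, (∀ i, n (en D i) = n' (en D i)) →
        q n v = q n' v := by
      intro v hv n n' h
      rw [hdep v hv n, hdep v hv n']
      congr 1
      congr 1
      funext i
      exact h i
    set q' : (Fin D.card → ℕ) → J → G := fun n v => if v ∈ t then q (ext D 0 n) v else 1 with hq'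
    have hq't : ∀ v ∈ t, ∀ n, q' n v = q (ext D 0 n) v := by
      intro v hv n
      rw [hq']
      dsimp only
      rw [if_pos hv]
    have hz := wide_complex (k := D.card) (S := t) (q := q')
      (dep := fun v => Finset.univ.filter fun i => ((en D i : D) : Fin k) ∈ dep v)
      (Finset.card_pos.2 hD) hK hs₀
      ⟨fun v hv i hi R hR => by
        have hi' := (Finset.mem_filter.1 hi).2
        obtain ⟨K, hK0, hnull⟩ := hq.line v (Finset.mem_univ v) _ hi' R hR
        refine ⟨K, hK0, ?_⟩
        have h6 := null_dep hD hnull (fun m => by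
          have h7 : ∀ s, q (Function.update m (en D i) s) v =
              q (Function.update (ext D 0 fun i => m (en D i)) (en D i) s) v := by
            intro s
            refine hsame v hv _ _ fun i' => ?_
            by_cases hii : ((en D i' : D) : Fin k) = (en D i : D)
            · rw [hii, Function.update_self, Function.update_self]
            · rw [Function.update_of_ne hii, Function.update_of_ne hii, ext_en]
          unfold Bad
          simp only [h7])
        refine null_mono (fun n hn => ?_) h6
        obtain ⟨a, T, hT, hTK⟩ := hn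
        refine ⟨a, T, fun s hs => ?_, hTK⟩
        have h8 := hT s hs
        dsimp only at h8 ⊢
        rw [hq't v hv, ext_update] at h8
        exact h8,
      fun v hv w hw hvw R hR => by
        have h6 := null_dep hD (hq.sep v (Finset.mem_univ v) w (Finset.mem_univ w) hvw R hR)
          (fun m => by rw [← hdep v hv m, ← hdep w hw m])
        refine null_mono (fun n hn => ?_) h6
        rw [hq't v hv, hq't w hw] at hn
        exact hn⟩
      (fun v hv i hi n s => by
        have hi' : ((en D i : D) : Fin k) ∉ dep v := fun h =>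
          hi (Finset.mem_filter.2 ⟨Finset.mem_univ i, h⟩)
        rw [hq't v hv, hq't v hv, ext_update]
        exact h1 v _ hi' _ _)
      (fun i => by
        obtain ⟨v, hv, hvi⟩ := (hmemD _).1 (en D i).2
        exact ⟨v, hv, Finset.mem_filter.2 ⟨Finset.mem_univ i, hvi⟩⟩)
      (fun v => maj_of_good (fun n => hK.fl _) (by
        by_cases hv : v ∈ t
        · have h6 := good_dep hD (hgood v) (fun m => by rw [hdep v hv m])
          have h7 : (fun n : Fin D.card → ℕ => (Φ (q' n v) : X → X)) =
              fun n => (Φ (q (ext D 0 n) v) : X → X) := by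
            funext n
            rw [hq't v hv]
          rw [h7]
          exact h6
        · intro H hH hb
          refine Eventually.of_forall fun x => ⟨H x, ?_⟩
          refine tendsto_const_nhds.congr' ?_
          refine eventually_atTop.2 ⟨fun _ => 1, fun N hN => ?_⟩
          have h6 : (fun m : Fin D.card → ℕ => H (Φ (q' m v) x)) = fun _ => H x := by
            funext m
            rw [hq']
            dsimp only
            rw [if_neg hv, map_one, Equiv.Perm.one_apply]
          rw [h6]
          show H x = (∏ j, (N j : ℝ))⁻¹ *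
            ∑ m ∈ Fintype.piFinset (fun j => Finset.range (N j)), H x
          rw [Finset.sum_const, Fintype.card_piFinset, nsmul_eq_mul]
          simp only [Finset.card_range]
          push_cast
          have h7 : (∏ i, (N i : ℝ)) ≠ 0 := Finset.prod_ne_zero_iff.2 fun i _ => by
            have h9 : 1 ≤ N i := hN i
            exact_mod_cast (by omega : N i ≠ 0)
          rw [← mul_assoc, inv_mul_cancel₀ h7, one_mul]))
      (F := fun j => if j ∈ t then (fun x => f j x - c j) else fun _ => 1) (fun v => by
        by_cases hv : v ∈ t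
        · simp only [hv, if_true]
          obtain ⟨m₁, C₁, b₁⟩ := hf v
          refine ⟨⟨m₁.sub measurable_const, C₁ + ‖c v‖, fun x => (norm_sub_le _ _).trans
            (add_le_add (b₁ x) le_rfl)⟩, fun _ B hB => ?_, fun h => absurd hv h⟩
          rcases MeasurableSpace.measurableSet_bot_iff.1 hB with rfl | rfl
          · simp
          · rw [Measure.restrict_univ]
            have hfi : Integrable (f v) μ := Integrable.of_bound m₁.aestronglyMeasurable C₁
              (Eventually.of_forall b₁)
            rw [integral_sub hfi (integrable_const _), integral_const]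
            simp [hc]
        · simp only [hv, if_false]
          exact ⟨⟨measurable_const, 1, fun x => by simp⟩, fun h => absurd h hv,
            fun _ => measurable_const⟩)
    filter_upwards [hz] with x hx
    have hx2 := (hx.comp (tendsto_res D)).mul_const (∏ j ∈ Finset.univ \ t, c j)
    rw [zero_mul] at hx2
    refine hx2.congr' ?_
    refine eventually_atTop.2 ⟨fun _ => 1, fun N hN => ?_⟩
    have hN1 : ∀ l, 1 ≤ N l := hN
    have h6 := bxc_dep D hN1 (fun m => ∏ j ∈ t, (f j (Φ (q (ext D 0 m) j) x) - c j))
    have h7 : (fun n : Fin k → ℕ => (∏ j ∈ t, (f j (Φ (q n j) x) - c j)) *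
        ∏ j ∈ Finset.univ \ t, c j) = fun n => (∏ j ∈ Finset.univ \ t, c j) *
          ∏ j ∈ t, (f j (Φ (q (ext D 0 fun i => n (en D i)) j) x) - c j) := by
      funext n
      rw [mul_comm]
      congr 1
      refine Finset.prod_congr rfl fun j hj => ?_
      rw [← hdep j hj n]
    have hB : bxc k N (fun n : Fin k → ℕ => (∏ j ∈ t, (f j (Φ (q n j) x) - c j)) *
        ∏ j ∈ Finset.univ \ t, c j) = (∏ j ∈ Finset.univ \ t, c j) *
          bxc D.card (fun i => N (en D i))
            (fun m => ∏ j ∈ t, (f j (Φ (q (ext D 0 m) j) x) - c j)) := by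
      rw [h7, bxc_mul, h6]
    have hA : (fun m : Fin D.card → ℕ => ∏ j, (if j ∈ t then fun x => f j x - c j
        else fun _ => 1) (Φ (q' m j) x)) =
        fun m => ∏ j ∈ t, (f j (Φ (q (ext D 0 m) j) x) - c j) := by
      funext m
      rw [← Finset.prod_mul_prod_compl t]
      have h8 : ∏ j ∈ tᶜ, (if j ∈ t then (fun x => f j x - c j) else fun _ => 1)
          (Φ (q' m j) x) = 1 := by
        refine Finset.prod_eq_one fun j hj => ?_
        rw [if_neg (Finset.mem_compl.1 hj)]
      rw [h8, mul_one]
      refine Finset.prod_congr rfl fun j hj => ?_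
      rw [if_pos hj, hq't j hj]
    show bxc D.card (fun i => N (en D i)) (fun m => ∏ j, (if j ∈ t then fun x => f j x - c j
        else fun _ => 1) (Φ (q' m j) x)) * _ = bxc k N _
    rw [hB, hA, mul_comm]
  have hall : ∀ᵐ x ∂μ, ∀ t : Finset J, t ≠ ∅ → Tendsto (fun N => bxc k N fun n =>
      (∏ j ∈ t, (f j (Φ (q n j) x) - c j)) * ∏ j ∈ Finset.univ \ t, c j) atTop (𝓝 0) := by
    rw [ae_all_iff]
    intro t
    by_cases ht : t = ∅
    · exact Eventually.of_forall fun x h => absurd ht h
    · filter_upwards [key t ht] with x hx _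
      exact hx
  filter_upwards [hall] with x hx
  have hsum := tendsto_finsetSum ((Finset.univ : Finset J).powerset.erase ∅) fun t ht =>
    hx t (Finset.ne_of_mem_erase ht)
  rw [Finset.sum_const_zero] at hsum
  have h9 := hsum.add_const (∏ j, c j)
  rw [zero_add] at h9
  refine h9.congr' ?_
  refine eventually_atTop.2 ⟨fun _ => 1, fun N hN => ?_⟩
  have hN1 : ∀ l, 1 ≤ N l := hN
  have hconst : bxc k N (fun _ => ∏ j, c j) = ∏ j, c j := by
    unfold Pool.Agent.W761.Box.bxc
    rw [Finset.sum_const, Fintype.card_piFinset, nsmul_eq_mul]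
    simp only [Finset.card_range]
    push_cast
    have h7 : (∏ i, (N i : ℂ)) ≠ 0 := Finset.prod_ne_zero_iff.2 fun i _ => by
      have h9 : 1 ≤ N i := hN1 i
      exact_mod_cast (by omega : N i ≠ 0)
    rw [← mul_assoc, inv_mul_cancel₀ h7, one_mul]
  have hpt : ∀ n : Fin k → ℕ, ∑ t ∈ (Finset.univ : Finset J).powerset.erase ∅,
      (∏ j ∈ t, (f j (Φ (q n j) x) - c j)) * ∏ j ∈ Finset.univ \ t, c j + ∏ j, c j =
      ∏ j, f j (Φ (q n j) x) := by
    intro n
    have h1 := Finset.prod_add (fun j => f j (Φ (q n j) x) - c j)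
      (fun j => c j) (Finset.univ : Finset J)
    have h2 : ∏ j, (f j (Φ (q n j) x) - c j + c j) =
        ∏ j, f j (Φ (q n j) x) := Finset.prod_congr rfl fun j _ => by ring
    rw [h2, ← Finset.add_sum_erase _ _ (Finset.empty_mem_powerset _)] at h1
    rw [h1, Finset.prod_empty, one_mul, Finset.sdiff_empty]
    ring
  have hL : ∑ t ∈ (Finset.univ : Finset J).powerset.erase ∅, bxc k N (fun n =>
      (∏ j ∈ t, (f j (Φ (q n j) x) - c j)) * ∏ j ∈ Finset.univ \ t, c j) + ∏ j, c j =
      bxc k N fun n => ∏ j, f j (Φ (q n j) x) := by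
    rw [← bxc_sum]
    conv_lhs => rw [← hconst]
    rw [← bxc_add]
    congr 1
    funext n
    exact hpt n
  exact hL

end Pool.Agent.U547.KP
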